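import Pool.Agent.X243.Gen.Pull6
import Pool.Agent.X243.Gen.Main

/-!
The sieve for the forms `q`, `r`, `D q - ρ_i r`, uniform in the `ρ_i`.
-/

set_option autoImplicit false
set_option linter.all false

open Polynomial
open scoped Classical

namespace Pool.Agent.U660.FT

open Pool.Agent.X243.Gen Pool.Agent.X243.Tate Pool.Agent.X243.Sol
  Pool.Agent.Y160.T3

variable {R k : Type} [CommRing R] [IsDomain R] [IsIntegrallyClosed R] [IsNoetherianRing R]
  [Field k] [Algebra R k] [IsFractionRing R k]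

/-- The coefficients of `q` in the forms `q`, `r`, `D q - ρ_i r`. -/
def cl {μ : ℕ} (D : R) : Option (Option (Fin μ)) → R
  | none => 1
  | some none => 0
  | some (some _) => D

/-- The coefficients of `r`. -/
def cm {μ : ℕ} (ρ : Fin μ → R) : Option (Option (Fin μ)) → R
  | none => 0
  | some none => 1
  | some (some i) => -(ρ i)

omit [IsIntegrallyClosed R] [IsNoetherianRing R] in
theorem c_ne {μ : ℕ} {D : R} (hD : D ≠ 0) (ρ : Fin μ → R) (i : Option (Option (Fin μ))) :
    cl D i ≠ 0 ∨ cm ρ i ≠ 0 := by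
  rcases i with _ | _ | i
  · exact Or.inl one_ne_zero
  · exact Or.inr one_ne_zero
  · exact Or.inl hD

omit [IsIntegrallyClosed R] [IsNoetherianRing R] in
theorem c_det {μ : ℕ} (D : R) (ρ : Fin μ → R) :
    cl (μ := μ) D none * cm ρ (some none) - cl (μ := μ) D (some none) * cm ρ none ≠ 0 := by
  have e : cl (μ := μ) D none * cm ρ (some none) - cl (μ := μ) D (some none) * cm ρ none = 1 := by
    show (1 : R) * 1 - 0 * 0 = 1
    ring
  rw [e]
  exact one_ne_zero

omit [IsIntegrallyClosed R] [IsNoetherianRing R] in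
theorem cst_eq {μ : ℕ} {D : R} (hD : D ≠ 0) (ρ ρ' : Fin μ → R) :
    cst (cl D) (cm ρ) none (some none) = cst (cl D) (cm ρ') none (some none) := by
  unfold cst
  congr 1
  refine Finset.prod_congr rfl fun i _ => ?_
  rcases i with _ | _ | i
  · rw [if_pos, if_pos] <;> exact one_ne_zero
  · rw [if_neg, if_neg] <;> first | rfl | exact fun h => h rfl
  · rw [if_pos, if_pos] <;> exact hD

variable (R) in
theorem densU [Algebra.FiniteType ℤ R] (hR : ¬ IsField R) (h2 : (2 : R) ≠ 0) {μ : ℕ}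
    {N : ℕ} (hN : 3 ≤ N) {D : R} (hD : D ≠ 0) (η : ℝ) (hη : 0 < η) :
    ∃ M : Ideal R, Finite (R ⧸ M) ∧ ∀ ρ : Fin μ → R,
      (1 - η) * (Nat.card (R ⧸ M) : ℝ) ^ (Fintype.card (Fin (N + 1) ⊕ Fin (N + 1))) ≤
      (({x : Fin (N + 1) ⊕ Fin (N + 1) → R ⧸ M | ∀ s : Option (Option (Option (Fin μ)) × Fin 3),
        ∃ p ∈ Zc R (2 * N + 2) (cst (cl D) (cm ρ) none (some none)),
          ∀ y : Fin (N + 1) ⊕ Fin (N + 1) → R,
          (∀ j, Ideal.Quotient.mk M (y j) = x j) →
          (fun j => Ideal.Quotient.mk p (y j)) ∈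
            Lev N (cl D) (cm ρ) none (some none) s p}).ncard : ℝ) := by
  have hDD : 0 < DD N := by
    have := D3_pos N
    unfold DD
    positivity
  have hD' : (0 : ℝ) < ((DD N * DD N : ℕ) : ℝ) := by
    have : 0 < DD N * DD N := Nat.mul_pos hDD hDD
    exact_mod_cast this
  obtain ⟨c, hc⟩ : ∃ c : R, c = cst (cl D) (cm (fun _ : Fin μ => (0 : R))) none (some none) :=
    ⟨_, rfl⟩
  have hcst : ∀ ρ : Fin μ → R, cst (cl D) (cm ρ) none (some none) = c := fun ρ => by
    rw [hc]; exact cst_eq hD _ _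
  have hc0 : c ≠ 0 := by
    rw [hc]
    exact cst_ne (c_ne hD _) (c_det D _)
  obtain ⟨M, hM, h⟩ := densityU (Fin (N + 1) ⊕ Fin (N + 1)) (Option (Option (Option (Fin μ)) × Fin 3))
    (Zc R (2 * N + 2) c) (Zc_inf R hR h2 _ hc0) (fun p hp => hp.1.1) (fun p hp => hp.1.2.1)
    (c := 1 / ((DD N * DD N : ℕ) : ℝ)) (by positivity) η hη
  refine ⟨M, hM, fun ρ => ?_⟩
  rw [hcst ρ]
  refine h (fun s p => Lev N (cl D) (cm ρ) none (some none) s p) ?_
  intro s p hp
  have h1 := Lev_card hN (cl D) (cm ρ) none (some none) s (p := p) (by rw [hcst ρ]; exact hp)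
  have hc : Fintype.card (Fin (N + 1) ⊕ Fin (N + 1)) = 2 * N + 2 := by
    rw [Fintype.card_sum, Fintype.card_fin]
    omega
  rw [hc, one_div, inv_mul_le_iff₀ hD']
  exact_mod_cast h1

end Pool.Agent.U660.FT
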