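import Pool.Agent.X243.Gen.Pull6
import Pool.Agent.X243.Tate.Ind2

/-!
Sections of infinite order of the bases.
-/

set_option autoImplicit false
set_option linter.all false

open Polynomial IsDedekindDomain WeierstrassCurve WeierstrassCurve.Affine
open scoped Classical

namespace Pool.Agent.U660.FT

open Pool.Agent.TH115.GD Pool.Agent.W309.RK Pool.Agent.TH958.T2 Pool.Agent.X243.Tate
  Pool.Agent.X243.Gen

variable {k : Type} [Field k] (K : Type) [Field K] [Algebra k[X] K] [IsFractionRing k[X] K]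

theorem cop_X {y : k} (h : (0 : k) ≠ y) : IsCoprime (X : k[X]) (X - C y) := by
  have h3 : IsCoprime (X - C 0 : k[X]) (X - C y) :=
    isCoprime_X_sub_C_of_isUnit_sub (isUnit_iff_ne_zero.2 (sub_ne_zero.2 h))
  rwa [C_0, sub_zero] at h3

theorem cop_lin {x y : k} (h : x ≠ y) : IsCoprime (X - C x : k[X]) (X - C y) :=
  isCoprime_X_sub_C_of_isUnit_sub (isUnit_iff_ne_zero.2 (sub_ne_zero.2 h))

/-- A section of infinite order for `a5`, `b5`. -/
theorem rank5 (h2 : (2 : k) ≠ 0) {β : k} (hβ : β ≠ 0) (hβ1 : β ≠ 1) (hβ2 : β ≠ -1) :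
    ∃ P : Fin 1 → Pt (crv (algebraMap k[X] K (a5 β)) (algebraMap k[X] K (b5 β))) K,
      LinearIndependent ℤ P := by
  obtain ⟨⟨ha, hb, hab, -, -, -, -, -, -⟩, -, -, -⟩ := base5 (K := K) h2 hβ hβ1 hβ2
  have hm1 : β - 1 ≠ 0 := sub_ne_zero.2 hβ1
  have hp1 : β + 1 ≠ 0 := fun h => hβ2 (by linear_combination h)
  have hb2 : β ^ 2 - 1 ≠ 0 := by
    have : β ^ 2 - 1 = (β - 1) * (β + 1) := by ring
    rw [this]
    exact mul_ne_zero hm1 hp1
  have hneg : (-1 : k) ≠ 0 := neg_ne_zero.2 one_ne_zero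
  obtain ⟨γ, hγ⟩ : ∃ γ : k, γ = β⁻¹ := ⟨_, rfl⟩
  have hγ0 : γ ≠ 0 := by rw [hγ]; exact inv_ne_zero hβ
  have hβγ : β * γ = 1 := by rw [hγ]; exact mul_inv_cancel₀ hβ
  have hβγ' : C β * C γ = (1 : k[X]) := by rw [← C_mul, hβγ, C_1]
  have hβ20 : β ^ 2 ≠ 0 := pow_ne_zero 2 hβ
  obtain ⟨A1, hA1⟩ : ∃ A1 : k[X], A1 = X - C (-γ) := ⟨_, rfl⟩
  obtain ⟨A2, hA2⟩ : ∃ A2 : k[X], A2 = X - C γ := ⟨_, rfl⟩
  obtain ⟨D1, hD1⟩ : ∃ D1 : k[X], D1 = X - C (-1) := ⟨_, rfl⟩
  obtain ⟨D2, hD2⟩ : ∃ D2 : k[X], D2 = X - C 1 := ⟨_, rfl⟩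
  have eA1 : C β * A1 = C β * X + 1 := by
    rw [hA1, C_neg]; linear_combination hβγ'
  have eA2 : C β * A2 = C β * X - 1 := by
    rw [hA2]; linear_combination -hβγ'
  have eD1 : D1 = X + 1 := by rw [hD1, C_neg, C_1]; ring
  have eD2 : D2 = X - 1 := by rw [hD2, C_1]
  have ea : a5 β = C (β ^ 2) * (A1 * A2) := by
    have : C (β ^ 2) * (A1 * A2) = (C β * A1) * (C β * A2) := by rw [C_pow]; ring
    rw [this, eA1, eA2, a5, C_pow]
    ring
  have eb : b5 β = C (β ^ 2 - 1) * (X * X) := by rw [b5]; ring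
  have ec : a5 β - b5 β = D1 * D2 := by
    rw [a5, b5, eD1, eD2, C_sub, C_1, C_pow]
    ring
  have G1 : Irreducible A1 := by rw [hA1]; exact irreducible_X_sub_C _
  have G3 : Irreducible D1 := by rw [hD1]; exact irreducible_X_sub_C _
  have n1 : A1 ≠ 0 := G1.ne_zero
  have n2 : A2 ≠ 0 := by rw [hA2]; exact X_sub_C_ne_zero _
  have n3 : D1 ≠ 0 := G3.ne_zero
  have n4 : D2 ≠ 0 := by rw [hD2]; exact X_sub_C_ne_zero _
  have hX0 : (X : k[X]) ≠ 0 := X_ne_zero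
  have hγγ : -γ ≠ γ := by
    intro h
    apply mul_ne_zero h2 hγ0
    linear_combination -h
  have h11 : (-1 : k) ≠ 1 := by
    intro h
    apply h2
    linear_combination -h
  have hγ1 : γ ≠ 1 := by
    rintro h
    apply hβ1
    rw [h, mul_one] at hβγ
    exact hβγ
  have hγ2 : γ ≠ -1 := by
    rintro h
    apply hβ2
    rw [h] at hβγ
    linear_combination -hβγ
  have c12 : IsCoprime A1 A2 := by rw [hA1, hA2]; exact cop_lin hγγ
  have c1X : IsCoprime A1 X := by rw [hA1]; exact (cop_X (neg_ne_zero.2 hγ0).symm).symm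
  have cX2 : IsCoprime X A2 := by rw [hA2]; exact cop_X hγ0.symm
  have c3A1 : IsCoprime D1 A1 := by
    rw [hA1, hD1]; exact cop_lin fun h => hγ1 (neg_injective h).symm
  have c3A2 : IsCoprime D1 A2 := by rw [hA2, hD1]; exact cop_lin hγ2.symm
  have c34 : IsCoprime D1 D2 := by rw [hD1, hD2]; exact cop_lin h11
  have cX3 : IsCoprime X D1 := by rw [hD1]; exact cop_X hneg.symm
  have iX : Irreducible (X : k[X]) := irreducible_X
  have fa : a5 β = (C β * X + 1) * (C β * X - 1) := by rw [a5, C_pow]; ring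
  have fb : b5 β = (C β - 1) * (C β + 1) * X ^ 2 := by rw [b5, C_sub, C_1, C_pow]; ring
  generalize a5 β = a at *
  generalize b5 β = b at *
  -- the points
  obtain ⟨T0, hT0, hT0'⟩ := pt_par K h2 ha hb hab (x := 0) (y := 0) (by ring)
    (c0 := β ^ 2 * (β ^ 2 - 1)) (c1 := -β ^ 2) (mul_ne_zero hβ20 hb2) (neg_ne_zero.2 hβ20)
    (p := A1 * A2 * (X * X))
    (q := A1 * A2) (mul_ne_zero (mul_ne_zero n1 n2) (mul_ne_zero hX0 hX0))
    (mul_ne_zero n1 n2) (by rw [if_pos rfl, ea, eb, C_mul]; ring)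
    (by rw [if_neg (Ne.symm ha), ea, C_neg]; ring)
  obtain ⟨Ta, hTa, hTa'⟩ := pt_par K h2 ha hb hab (x := a) (y := 0) (by ring)
    (c0 := β ^ 2) (c1 := β ^ 2) hβ20 hβ20 (p := A1 * A2)
    (q := A1 * A2 * (D1 * D2))
    (mul_ne_zero n1 n2) (mul_ne_zero (mul_ne_zero n1 n2) (mul_ne_zero n3 n4))
    (by rw [if_neg ha, ea]) (by rw [if_pos rfl, ec, ea]; ring)
  have Cp1 : (C (β + 1) : k[X]) = C β + 1 := by rw [C_add, C_1]
  have ex0 : (C β + 1) * X * (C β * X + 1) = C ((β + 1) * β) * (A1 * X) := by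
    rw [C_mul, Cp1, ← eA1]; ring
  have exa : (C β + 1) * X * (C β * X + 1) - a = C β * (A1 * D1) := by
    rw [fa, eD1, ← mul_assoc, eA1]; ring
  have nR0 : (C β + 1) * X * (C β * X + 1) ≠ 0 := by
    rw [ex0]
    exact mul_ne_zero (C_ne_zero.2 (mul_ne_zero hp1 hβ)) (mul_ne_zero n1 hX0)
  have nR1 : (C β + 1) * X * (C β * X + 1) ≠ a := by
    rw [← sub_ne_zero, exa]
    exact mul_ne_zero (C_ne_zero.2 hβ) (mul_ne_zero n1 n3)
  obtain ⟨R, hR, hR'⟩ := pt_par K h2 ha hb hab (x := (C β + 1) * X * (C β * X + 1))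
    (y := (C β + 1) * X * (C β * X + 1) * (X + 1)) (by rw [fa, fb]; ring)
    (c0 := (β + 1) * β) (c1 := β) (mul_ne_zero hp1 hβ) hβ (p := A1 * X)
    (q := A1 * D1) (mul_ne_zero n1 hX0) (mul_ne_zero n1 n3)
    (by rw [if_neg nR0, ex0]) (by rw [if_neg nR1, exa])
  let φo : Fin 3 → (Pt (crv (algebraMap k[X] K a) (algebraMap k[X] K b)) K →+ ZMod 2) :=
    ![parHom (root0 (algebraMap k[X] K a) (algebraMap k[X] K b)) (ordK A1 G1)
        (ordK_mul _ G1),
      parHom (rootA (algebraMap k[X] K a) (algebraMap k[X] K b)) (ordK D1 G3)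
        (ordK_mul _ G3),
      parHom (root0 (algebraMap k[X] K a) (algebraMap k[X] K b)) (ordK X iX)
        (ordK_mul _ iX)]
  let φ : Pt (crv (algebraMap k[X] K a) (algebraMap k[X] K b)) K →+ (Fin 3 → ZMod 2) :=
    AddMonoidHom.pi φo
  have v0 : ∀ P, φ P 0 = ((ordK A1 G1 (del _ 0 P) : ℤ) : ZMod 2) := fun P => rfl
  have v1 : ∀ P, φ P 1 = ((ordK D1 G3 (del _ (algebraMap k[X] K a) P) : ℤ) : ZMod 2) :=
    fun P => rfl
  have v2 : ∀ P, φ P 2 = ((ordK X iX (del _ 0 P) : ℤ) : ZMod 2) := fun P => rfl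
  have w0 : φ T0 0 = 1 := by
    rw [v0, hT0]
    show pr K A1 G1 _ = 1
    rw [pr_mul G1 (mul_ne_zero n1 n2) (mul_ne_zero hX0 hX0), pr_mul G1 n1 n2, pr_mul G1 hX0 hX0,
      pr_cop G1 c12, pr_cop G1 c1X, pr_self]
    decide
  have w1 : φ T0 1 = 0 := by
    rw [v1, hT0']
    show pr K D1 G3 _ = 0
    rw [pr_mul G3 n1 n2, pr_cop G3 c3A1, pr_cop G3 c3A2]
    decide
  have w2 : φ T0 2 = 0 := by
    rw [v2, hT0]
    show pr K X iX _ = 0
    rw [pr_mul iX (mul_ne_zero n1 n2) (mul_ne_zero hX0 hX0), pr_mul iX n1 n2, pr_mul iX hX0 hX0,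
      pr_cop iX c1X.symm, pr_cop iX cX2, pr_self]
    decide
  have x0 : φ Ta 0 = 1 := by
    rw [v0, hTa]
    show pr K A1 G1 _ = 1
    rw [pr_mul G1 n1 n2, pr_cop G1 c12, pr_self]
    decide
  have x1 : φ Ta 1 = 1 := by
    rw [v1, hTa']
    show pr K D1 G3 _ = 1
    rw [pr_mul G3 (mul_ne_zero n1 n2) (mul_ne_zero n3 n4), pr_mul G3 n1 n2, pr_mul G3 n3 n4,
      pr_cop G3 c3A1, pr_cop G3 c3A2, pr_cop G3 c34, pr_self]
    decide
  have x2 : φ Ta 2 = 0 := by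
    rw [v2, hTa]
    show pr K X iX _ = 0
    rw [pr_mul iX n1 n2, pr_cop iX c1X.symm, pr_cop iX cX2]
    decide
  have y0 : φ R 0 = 1 := by
    rw [v0, hR]
    show pr K A1 G1 _ = 1
    rw [pr_mul G1 n1 hX0, pr_cop G1 c1X, pr_self]
    decide
  have y1 : φ R 1 = 1 := by
    rw [v1, hR']
    show pr K D1 G3 _ = 1
    rw [pr_mul G3 n1 n3, pr_cop G3 c3A1, pr_self]
    decide
  have y2 : φ R 2 = 1 := by
    rw [v2, hR]
    show pr K X iX _ = 1
    rw [pr_mul iX n1 hX0, pr_cop iX c1X.symm, pr_self]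
    decide
  have hsurj : Function.Surjective φ := by
    refine surjective_of_single φ ![T0, T0 + Ta, Ta + R] ?_
    intro i j
    fin_cases i <;> fin_cases j
    · exact w0
    · exact w1
    · exact w2
    · show φ (T0 + Ta) 0 = 0
      rw [map_add]
      show φ T0 0 + φ Ta 0 = 0
      rw [w0, x0]; decide
    · show φ (T0 + Ta) 1 = 1
      rw [map_add]
      show φ T0 1 + φ Ta 1 = 1
      rw [w1, x1]; decide
    · show φ (T0 + Ta) 2 = 0
      rw [map_add]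
      show φ T0 2 + φ Ta 2 = 0
      rw [w2, x2]; decide
    · show φ (Ta + R) 0 = 0
      rw [map_add]
      show φ Ta 0 + φ R 0 = 0
      rw [x0, y0]; decide
    · show φ (Ta + R) 1 = 0
      rw [map_add]
      show φ Ta 1 + φ R 1 = 0
      rw [x1, y1]; decide
    · show φ (Ta + R) 2 = 1
      rw [map_add]
      show φ Ta 2 + φ R 2 = 1
      rw [x2, y2]; decide
  obtain ⟨hf1, hf2⟩ := tors_two' K h2 a b
  have hfin := exists_independent φ hsurj hf1 hf2
  have hcc : Fintype.card (Fin 3) - 2 = 1 := by rw [Fintype.card_fin]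
  rw [hcc] at hfin
  exact hfin

/-- A section of infinite order for `c - s`, `c - e s`. -/
theorem rank3 (h2 : (2 : k) ≠ 0) {c e m : k} (hc : c ≠ 0) (he : e ≠ 0) (he1 : e ≠ 1)
    (hm : c * e = m ^ 2) :
    ∃ P : Fin 1 → Pt (crv (algebraMap k[X] K (C c - X)) (algebraMap k[X] K (C c - C e * X))) K,
      LinearIndependent ℤ P := by
  obtain ⟨ha, hb, hab, -, -, -, -, -, -⟩ := base3 (K := K) h2 hc he he1 hm
  have hee : e - 1 ≠ 0 := sub_ne_zero.2 he1
  have hneg : (-1 : k) ≠ 0 := neg_ne_zero.2 one_ne_zero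
  obtain ⟨γ, hγ⟩ : ∃ γ : k, γ = c / e := ⟨_, rfl⟩
  have hγ0 : γ ≠ 0 := by rw [hγ]; exact div_ne_zero hc he
  have heγ : e * γ = c := by rw [hγ]; exact mul_div_cancel₀ c he
  have heγ' : C e * C γ = (C c : k[X]) := by rw [← C_mul, heγ]
  have hγc : c ≠ γ := by
    intro h
    apply he1
    rw [h] at heγ
    have h3 : (e - 1) * γ = 0 := by linear_combination heγ
    rcases mul_eq_zero.1 h3 with h4 | h4
    · exact sub_eq_zero.1 h4
    · exact absurd h4 hγ0
  obtain ⟨A1, hA1⟩ : ∃ A1 : k[X], A1 = X - C c := ⟨_, rfl⟩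
  obtain ⟨B1, hB1⟩ : ∃ B1 : k[X], B1 = X - C γ := ⟨_, rfl⟩
  have ea : (C c - X : k[X]) = C (-1) * A1 := by rw [hA1, C_neg, C_1]; ring
  have eb : (C c - C e * X : k[X]) = C (-e) * B1 := by
    rw [hB1, C_neg]; linear_combination -heγ'
  have ec : (C c - X : k[X]) - (C c - C e * X) = C (e - 1) * X := by rw [C_sub, C_1]; ring
  have ha' : (C c : k[X]) - (C c - X) = X := by ring
  have hab' : (C m * X) ^ 2 = C c * (C c - (C c - X)) * (C c - (C c - C e * X)) := by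
    have hmm : C c * C e = (C m : k[X]) ^ 2 := by rw [← C_mul, hm, C_pow]
    linear_combination -X ^ 2 * hmm
  have nR1 : (C c : k[X]) ≠ C c - X := by
    intro h
    apply (X_ne_zero : (X : k[X]) ≠ 0)
    linear_combination h
  generalize (C c - X : k[X]) = a at *
  generalize (C c - C e * X : k[X]) = b at *
  have G1 : Irreducible A1 := by rw [hA1]; exact irreducible_X_sub_C _
  have G2 : Irreducible B1 := by rw [hB1]; exact irreducible_X_sub_C _
  have iX : Irreducible (X : k[X]) := irreducible_X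
  have n1 : A1 ≠ 0 := G1.ne_zero
  have n2 : B1 ≠ 0 := G2.ne_zero
  have hX0 : (X : k[X]) ≠ 0 := X_ne_zero
  have c12 : IsCoprime A1 B1 := by rw [hA1, hB1]; exact cop_lin hγc
  have cX1 : IsCoprime X A1 := by rw [hA1]; exact cop_X hc.symm
  have cX2 : IsCoprime X B1 := by rw [hB1]; exact cop_X hγ0.symm
  obtain ⟨T0, hT0, hT0'⟩ := pt_par K h2 ha hb hab (x := 0) (y := 0) (by ring)
    (c0 := e) (c1 := 1) he one_ne_zero (p := A1 * B1) (q := A1) (mul_ne_zero n1 n2) n1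
    (by rw [if_pos rfl, ea, eb, C_neg, C_neg, C_1]; ring)
    (by rw [if_neg (Ne.symm ha), ea, C_neg, C_1]; ring)
  obtain ⟨Ta, hTa, hTa'⟩ := pt_par K h2 ha hb hab (x := a) (y := 0) (by ring)
    (c0 := -1) (c1 := -(e - 1)) hneg (neg_ne_zero.2 hee) (p := A1) (q := A1 * X)
    n1 (mul_ne_zero n1 hX0)
    (by rw [if_neg ha, ea]) (by rw [if_pos rfl, ec, ea, C_neg, C_neg, C_1]; ring)
  have nR0 : (C c : k[X]) ≠ 0 := C_ne_zero.2 hc
  obtain ⟨R, hR, hR'⟩ := pt_par K h2 ha hb hab (x := C c) (y := C m * X)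
    hab'
    (c0 := c) (c1 := 1) hc one_ne_zero (p := 1) (q := X) one_ne_zero hX0
    (by rw [if_neg nR0, mul_one]) (by rw [if_neg nR1, C_1, ha', one_mul])
  let φo : Fin 3 → (Pt (crv (algebraMap k[X] K a) (algebraMap k[X] K b)) K →+
      ZMod 2) :=
    ![parHom (root0 (algebraMap k[X] K a) (algebraMap k[X] K b))
        (ordK A1 G1) (ordK_mul _ G1),
      parHom (root0 (algebraMap k[X] K a) (algebraMap k[X] K b))
        (ordK B1 G2) (ordK_mul _ G2),
      parHom (rootA (algebraMap k[X] K a) (algebraMap k[X] K b))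
        (ordK X iX) (ordK_mul _ iX)]
  let φ : Pt (crv (algebraMap k[X] K a) (algebraMap k[X] K b)) K →+
      (Fin 3 → ZMod 2) := AddMonoidHom.pi φo
  have v0 : ∀ P, φ P 0 = ((ordK A1 G1 (del _ 0 P) : ℤ) : ZMod 2) := fun P => rfl
  have v1 : ∀ P, φ P 1 = ((ordK B1 G2 (del _ 0 P) : ℤ) : ZMod 2) := fun P => rfl
  have v2 : ∀ P, φ P 2 = ((ordK X iX (del _ (algebraMap k[X] K a) P) : ℤ) : ZMod 2) :=
    fun P => rfl
  have w0 : φ T0 0 = 1 := by
    rw [v0, hT0]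
    show pr K A1 G1 _ = 1
    rw [pr_mul G1 n1 n2, pr_cop G1 c12, pr_self]
    decide
  have w1 : φ T0 1 = 1 := by
    rw [v1, hT0]
    show pr K B1 G2 _ = 1
    rw [pr_mul G2 n1 n2, pr_cop G2 c12.symm, pr_self]
    decide
  have w2 : φ T0 2 = 0 := by
    rw [v2, hT0']
    exact pr_cop iX cX1
  have x0 : φ Ta 0 = 1 := by
    rw [v0, hTa]
    exact pr_self G1
  have x1 : φ Ta 1 = 0 := by
    rw [v1, hTa]
    exact pr_cop G2 c12.symm
  have x2 : φ Ta 2 = 1 := by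
    rw [v2, hTa']
    show pr K X iX _ = 1
    rw [pr_mul iX n1 hX0, pr_cop iX cX1, pr_self]
    decide
  have y0 : φ R 0 = 0 := by
    rw [v0, hR]
    exact pr_cop G1 isCoprime_one_right
  have y1 : φ R 1 = 0 := by
    rw [v1, hR]
    exact pr_cop G2 isCoprime_one_right
  have y2 : φ R 2 = 1 := by
    rw [v2, hR']
    exact pr_self iX
  have hsurj : Function.Surjective φ := by
    refine surjective_of_single φ ![Ta + R, T0 + (Ta + R), R] ?_
    intro i j
    fin_cases i <;> fin_cases j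
    · show φ (Ta + R) 0 = 1
      rw [map_add]
      show φ Ta 0 + φ R 0 = 1
      rw [x0, y0]; decide
    · show φ (Ta + R) 1 = 0
      rw [map_add]
      show φ Ta 1 + φ R 1 = 0
      rw [x1, y1]; decide
    · show φ (Ta + R) 2 = 0
      rw [map_add]
      show φ Ta 2 + φ R 2 = 0
      rw [x2, y2]; decide
    · show φ (T0 + (Ta + R)) 0 = 0
      rw [map_add, map_add]
      show φ T0 0 + (φ Ta 0 + φ R 0) = 0
      rw [w0, x0, y0]; decide
    · show φ (T0 + (Ta + R)) 1 = 1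
      rw [map_add, map_add]
      show φ T0 1 + (φ Ta 1 + φ R 1) = 1
      rw [w1, x1, y1]; decide
    · show φ (T0 + (Ta + R)) 2 = 0
      rw [map_add, map_add]
      show φ T0 2 + (φ Ta 2 + φ R 2) = 0
      rw [w2, x2, y2]; decide
    · exact y0
    · exact y1
    · exact y2
  obtain ⟨hf1, hf2⟩ := tors_two' K h2 a b
  have hfin := exists_independent φ hsurj hf1 hf2
  have hcc : Fintype.card (Fin 3) - 2 = 1 := by rw [Fintype.card_fin]
  rw [hcc] at hfin
  exact hfin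

end Pool.Agent.U660.FT
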