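import Pool.Agent.U660.FT.Def

/-!
# Big line bundles
-/

set_option autoImplicit false

namespace Pool.Agent.U660.FT

variable {P : Type} [AddCommGroup P] {T : Var P}

/-- The line bundle has a nonzero section. -/
def Var.Eff (T : Var P) (L : P) : Prop := ∃ s : T.Sec L, T.NonZero s

/-- A positive multiple has a nonzero section. -/
def Var.QEff (T : Var P) (L : P) : Prop := ∃ q : ℕ, 1 ≤ q ∧ T.Eff (q • L)

theorem Eff.cast {L L' : P} (h : T.Eff L) (e : L = L') : T.Eff L' := e ▸ h

theorem Eff.add (hT : T.Irred) {L L' : P} (h : T.Eff L) (h' : T.Eff L') : T.Eff (L + L') := by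
  obtain ⟨s, hs⟩ := h
  obtain ⟨s', hs'⟩ := h'
  exact ⟨T.mul s s', hT s s' hs hs'⟩

theorem Eff.smul (hT : T.Irred) {L : P} (h : T.Eff L) {k : ℕ} (hk : 1 ≤ k) : T.Eff (k • L) := by
  induction k, hk using Nat.le_induction with
  | base => rwa [one_smul]
  | succ k hk ih =>
    rw [succ_nsmul]
    exact Eff.add hT ih h

theorem Eff.zero (p : T.Pt ℂ) : T.Eff 0 := ⟨T.one, p, by rw [T.ev_one]; exact one_ne_zero⟩

theorem Eff.q {L : P} (h : T.Eff L) : T.QEff L := ⟨1, le_rfl, by rwa [one_smul]⟩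

theorem QEff.add (hT : T.Irred) {L L' : P} (h : T.QEff L) (h' : T.QEff L') : T.QEff (L + L') := by
  obtain ⟨q, hq, h⟩ := h
  obtain ⟨q', hq', h'⟩ := h'
  refine ⟨q * q', Nat.mul_pos hq hq', ?_⟩
  refine Eff.cast (Eff.add hT (Eff.smul hT h hq') (Eff.smul hT h' hq)) ?_
  rw [smul_add, smul_smul, smul_smul, mul_comm q' q]

theorem QEff.sum (hT : T.Irred) (p : T.Pt ℂ) {κ : Type} (s : Finset κ) (L : κ → P)
    (h : ∀ i ∈ s, T.QEff (L i)) : T.QEff (∑ i ∈ s, L i) := by
  classical
  induction s using Finset.induction_on with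
  | empty => exact Eff.q (Eff.zero p)
  | insert i s hi ih =>
    rw [Finset.sum_insert hi]
    exact QEff.add hT (h i (Finset.mem_insert_self i s)) (ih fun j hj =>
      h j (Finset.mem_insert_of_mem hj))

theorem Big.eff {B : P} (h : T.Big B) : ∃ q : ℕ, 1 ≤ q ∧ T.Eff (q • B) := by
  obtain ⟨k, c, hk, hc, h⟩ := h 0
  refine ⟨c * k, Nat.mul_pos hc hk, Eff.cast h ?_⟩
  rw [add_zero, smul_smul]

theorem Big.add_q (hT : T.Irred) {B E : P} (h : T.Big B) (hE : T.QEff E) : T.Big (B + E) := by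
  intro L
  obtain ⟨k, c, hk, hc, h⟩ := h L
  obtain ⟨q, hq, hE⟩ := hE
  refine ⟨k, c * q, hk, Nat.mul_pos hc hq, ?_⟩
  refine Eff.cast (Eff.add hT (Eff.smul hT h hq) (Eff.smul hT hE (Nat.mul_pos hc hk))) ?_
  simp only [smul_add, smul_smul]
  rw [show q * (c * k) = c * q * k by ring, show q * c = c * q by ring,
    show c * k * q = c * q * k by ring]
  abel

theorem Big.add (hT : T.Irred) {B B' : P} (h : T.Big B) (h' : T.Big B') : T.Big (B + B') :=
  Big.add_q hT h (Big.eff h')

theorem Big.of_smul {B : P} {l : ℕ} (hl : 1 ≤ l) (h : T.Big (l • B)) : T.Big B := by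
  intro L
  obtain ⟨k, c, hk, hc, h⟩ := h L
  refine ⟨k * l, c, Nat.mul_pos hk hl, hc, Eff.cast h ?_⟩
  rw [smul_smul]

theorem Big.smul {B : P} {l : ℕ} (hT : T.Irred) (hl : 1 ≤ l) (h : T.Big B) : T.Big (l • B) := by
  induction l, hl using Nat.le_induction with
  | base => rwa [one_smul]
  | succ k hk ih =>
    rw [succ_nsmul]
    exact Big.add hT ih h

/-- If `B` and `B - ℓ C` are big, then `B - C` is big. -/
theorem Big.sub (hT : T.Irred) {B C : P} {l : ℕ} (hl : 1 ≤ l) (h : T.Big B)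
    (h' : T.Big (B - l • C)) : T.Big (B - C) := by
  refine Big.of_smul hl ?_
  obtain ⟨k, rfl⟩ := Nat.exists_eq_add_of_le' hl
  rcases Nat.eq_zero_or_pos k with rfl | hk
  · simpa using h'
  · have h1 : (k + 1) • (B - C) = k • B + (B - (k + 1) • C) := by
      rw [smul_sub, succ_nsmul, succ_nsmul]
      abel
    rw [h1]
    exact Big.add hT (Big.smul hT hk h) h'

/-- A sum of `m` big line bundles. -/
def Var.BigSum (T : Var P) (m : ℕ) (L : P) : Prop :=
  ∃ B : Fin m → P, (∀ l, T.Big (B l)) ∧ ∑ l, B l = L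

theorem BigSum.cons {m : ℕ} {L B : P} (h : T.BigSum m L) (hB : T.Big B) :
    T.BigSum (m + 1) (B + L) := by
  obtain ⟨A, hA, rfl⟩ := h
  refine ⟨Fin.cons B A, fun l => ?_, ?_⟩
  · refine Fin.cases ?_ (fun l => ?_) l
    · rwa [Fin.cons_zero]
    · rw [Fin.cons_succ]
      exact hA l
  · rw [Fin.sum_univ_succ]
    simp

theorem BigSum.uncons {m : ℕ} {L : P} (h : T.BigSum (m + 1) L) :
    ∃ B L', T.Big B ∧ T.BigSum m L' ∧ L = B + L' := by
  obtain ⟨A, hA, rfl⟩ := h
  exact ⟨A 0, ∑ l : Fin m, A l.succ, hA 0, ⟨fun l => A l.succ, fun l => hA _, rfl⟩,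
    Fin.sum_univ_succ A⟩

theorem BigSum.add_q (hT : T.Irred) {m : ℕ} (hm : 1 ≤ m) {L E : P} (h : T.BigSum m L)
    (hE : T.QEff E) : T.BigSum m (L + E) := by
  obtain ⟨k, rfl⟩ := Nat.exists_eq_add_of_le' hm
  obtain ⟨B, L', hB, hL', rfl⟩ := BigSum.uncons h
  have := BigSum.cons hL' (Big.add_q hT hB hE)
  rwa [show B + E + L' = B + L' + E by abel] at this

theorem BigSum.less (hT : T.Irred) {m a : ℕ} (ha : 1 ≤ a) (hm : a ≤ m) {L : P}
    (h : T.BigSum m L) : T.BigSum a L := by
  induction m, hm using Nat.le_induction with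
  | base => exact h
  | succ m hm ih =>
    obtain ⟨k, rfl⟩ := Nat.exists_eq_add_of_le' (ha.trans hm)
    apply ih
    obtain ⟨B, L', hB, hL', rfl⟩ := BigSum.uncons h
    obtain ⟨B', L'', hB', hL'', rfl⟩ := BigSum.uncons hL'
    rw [← add_assoc]
    exact BigSum.cons hL'' (Big.add hT hB hB')

theorem BigSum.of_sub {κ : Type} (C : κ → P) : ∀ (m : ℕ) (B : Fin m → P) (I : Multiset κ),
    (∀ l, T.Big (B l)) → (∀ l, ∀ i ∈ I, T.Big (B l - C i)) → Multiset.card I ≤ m →
      T.BigSum m (∑ l, B l - (I.map C).sum) := by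
  intro m
  induction m with
  | zero =>
    intro B I _ _ h
    have : I = 0 := Multiset.card_eq_zero.1 (Nat.le_zero.1 h)
    subst this
    exact ⟨fun l => l.elim0, fun l => l.elim0, by simp⟩
  | succ m ih =>
    intro B I hB hBC h
    rw [Fin.sum_univ_succ]
    rcases Multiset.empty_or_exists_mem I with rfl | ⟨i, hi⟩
    · have := BigSum.cons (ih (fun l => B l.succ) 0 (fun l => hB _) (by simp) (by simp)) (hB 0)
      simpa using this
    · obtain ⟨J, rfl⟩ := Multiset.exists_cons_of_mem hi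
      have := BigSum.cons (ih (fun l => B l.succ) J (fun l => hB _)
        (fun l j hj => hBC _ j (Multiset.mem_cons_of_mem hj)) (by
          rw [Multiset.card_cons] at h
          omega)) (hBC 0 i hi)
      rw [Multiset.map_cons, Multiset.sum_cons]
      rwa [show B 0 + ∑ l : Fin m, B l.succ - (C i + (J.map C).sum) =
        B 0 - C i + (∑ l : Fin m, B l.succ - (J.map C).sum) by abel]

theorem num_of_sub {κ : Type} (E : κ → ℤ) : ∀ (m : ℕ) (A : Fin m → ℤ) (I : Multiset κ),
    (∀ l, 1 ≤ A l) → (∀ l, ∀ i ∈ I, 0 ≤ A l + E i) → Multiset.card I ≤ m →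
      (m : ℤ) - Multiset.card I ≤ ∑ l, A l + (I.map E).sum := by
  intro m
  induction m with
  | zero =>
    intro A I _ _ h
    have : I = 0 := Multiset.card_eq_zero.1 (Nat.le_zero.1 h)
    subst this
    simp
  | succ m ih =>
    intro A I hA hAE h
    rw [Fin.sum_univ_succ]
    rcases Multiset.empty_or_exists_mem I with rfl | ⟨i, hi⟩
    · have := ih (fun l => A l.succ) 0 (fun l => hA _) (by simp) (by simp)
      have h0 := hA 0
      simp only [Multiset.card_zero, Multiset.map_zero, Multiset.sum_zero] at this ⊢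
      push_cast at this ⊢
      linarith
    · obtain ⟨J, rfl⟩ := Multiset.exists_cons_of_mem hi
      have := ih (fun l => A l.succ) J (fun l => hA _)
        (fun l j hj => hAE _ j (Multiset.mem_cons_of_mem hj)) (by
          rw [Multiset.card_cons] at h
          omega)
      have h0 := hAE 0 i hi
      rw [Multiset.map_cons, Multiset.sum_cons, Multiset.card_cons]
      push_cast at this ⊢
      linarith

end Pool.Agent.U660.FT
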