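import Mathlib

/-!
# Toroidal modifications of toric bundles over abelian covers

A projective variety `T` with a group `P` of line bundles is described by the points of its torsor: for
every `ℂ`-algebra `R` (used only for local ones) the set `Pt R` of all points of `T` with values in `R`
with trivialisations of the line bundles in `P` at this point which are compatible with sums. The
homomorphisms `P → Rˣ` act on it by changing the trivialisations, two elements of `Pt R` are
conjugate if and only if they give the same point of `T`, and a section of `L ∈ P` is a function on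
`Pt R` with values in `R` which is multiplied by `χ(L)`.
-/

set_option autoImplicit false

namespace Pool.Agent.U660.FT

/-- A variety with a group `P` of line bundles, given by its points with values in `ℂ`-algebras
together with trivialisations of the line bundles at these points. -/
structure Var (P : Type) [AddCommGroup P] where
  /-- the points with values in `R` together with compatible trivialisations of the line bundles -/
  Pt : (R : Type) → [CommRing R] → [Algebra ℂ R] → Type
  /-- the sections of a line bundle -/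
  Sec : P → Type
  /-- the value of a section at a point (with respect to the trivialisation) -/
  ev : ∀ {R : Type} [CommRing R] [Algebra ℂ R] {L : P}, Sec L → Pt R → R
  /-- change of the trivialisations by a homomorphism from `P` to the units of `R` -/
  act : ∀ {R : Type} [CommRing R] [Algebra ℂ R], (P →+ Additive Rˣ) → Pt R → Pt R
  /-- the values of sections change by the value of the homomorphism -/
  ev_act : ∀ {R : Type} [CommRing R] [Algebra ℂ R] (χ : P →+ Additive Rˣ) (p : Pt R) {L : P}
    (s : Sec L), ev s (act χ p) = ((χ L).toMul : R) * ev s p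
  /-- the section `1` of the trivial line bundle -/
  one : Sec 0
  ev_one : ∀ {R : Type} [CommRing R] [Algebra ℂ R] (p : Pt R), ev one p = 1
  /-- products of sections -/
  mul : ∀ {L L' : P}, Sec L → Sec L' → Sec (L + L')
  ev_mul : ∀ {R : Type} [CommRing R] [Algebra ℂ R] (p : Pt R) {L L' : P} (s : Sec L) (s' : Sec L'),
    ev (mul s s') p = ev s p * ev s' p

variable {P : Type} [AddCommGroup P]

/-- The line bundle `L` is globally generated: at every point with values in a local `ℂ`-algebra some
section of `L` is a unit. -/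
def Var.GG (V : Var P) (L : P) : Prop :=
  ∀ (R : Type) [CommRing R] [Algebra ℂ R] [IsLocalRing R] (p : V.Pt R),
    ∃ s : V.Sec L, IsUnit (V.ev s p)

/-- The line bundle `L` is very ample: it is globally generated, and the map to projective space given
by its sections is injective on the points with values in every local `ℂ`-algebra. -/
def Var.VA (V : Var P) (L : P) : Prop :=
  V.GG L ∧ ∀ (R : Type) [CommRing R] [Algebra ℂ R] [IsLocalRing R] (p p' : V.Pt R) (z : R),
    (∀ s : V.Sec L, V.ev s p' = z * V.ev s p) → ∃ χ : P →+ Additive Rˣ, V.act χ p = p'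

/-- The line bundle `A` is ample: for every line bundle `L` in `P` some multiple of some `kA + L`,
`k ≥ 1`, is globally generated. -/
def Var.Ample (V : Var P) (A : P) : Prop :=
  ∀ L : P, ∃ k c : ℕ, 1 ≤ k ∧ 1 ≤ c ∧ V.GG (c • (k • A + L))

/-- The section `s` is not zero at some complex point. -/
def Var.NonZero (V : Var P) {L : P} (s : V.Sec L) : Prop := ∃ p : V.Pt ℂ, V.ev s p ≠ 0

/-- The line bundle `A` is big: for every line bundle `L` in `P` some multiple of some `kA + L`, `k ≥ 1`,
has a nonzero section. -/
def Var.Big (V : Var P) (A : P) : Prop :=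
  ∀ L : P, ∃ k c : ℕ, 1 ≤ k ∧ 1 ≤ c ∧ ∃ s : V.Sec (c • (k • A + L)), V.NonZero s

/-- The product of two nonzero sections is nonzero. -/
def Var.Irred (V : Var P) : Prop :=
  ∀ {L L' : P} (s : V.Sec L) (s' : V.Sec L'), V.NonZero s → V.NonZero s' → V.NonZero (V.mul s s')

/-- The line bundle `κ + A_1 + ... + A_m` has the property `Q` for all ample line bundles
`A_1, ..., A_m` in `P`. -/
def Var.Adjoint (V : Var P) (Q : P → Prop) (κ : P) (m : ℕ) : Prop :=
  ∀ A : Fin m → P, (∀ l, V.Ample (A l)) → Q (κ + ∑ l, A l)

/-- A regular fan in the lattice `N` of rank `n` with support `{v : x_t(v) ≥ 0 for all t}`, where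
`x_1, ..., x_r` are linearly independent linear forms on `N`. -/
structure Fan (N ι : Type) [AddCommGroup N] [Fintype ι] (r n : ℕ) where
  /-- the linear forms -/
  x : Fin r → N →+ ℤ
  /-- the generators of the rays -/
  s : ι → N
  /-- the maximal cones -/
  S : Finset (Finset ι)
  indep : LinearIndependent ℤ x
  card : ∀ σ ∈ S, σ.card = n
  basis : ∀ σ ∈ S, ∃ b : Module.Basis σ ℤ N, ∀ i, b i = s i
  pos : ∀ t i, 0 ≤ x t (s i)
  cover : ∀ v, (∀ t, 0 ≤ x t v) → ∃ σ ∈ S, ∃ w : ι → ℕ, (∀ i, i ∉ σ → w i = 0) ∧
    v = ∑ i, w i • s i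
  face : ∀ σ ∈ S, ∀ τ ∈ S, ∀ w w' : ι → ℕ, (∀ i, i ∉ σ → w i = 0) → (∀ i, i ∉ τ → w' i = 0) →
    ∑ i, w i • s i = ∑ i, w' i • s i → w = w'

/-- The data of a toroidal modification `X` of a toric bundle over an abelian cover of `T`: a fan, a
homomorphism `γ` from the dual lattice to the group of line bundles, and sections `F_t` of the line
bundles `γ(x_t)`. -/
structure Datum (T : Var P) (N ι : Type) [AddCommGroup N] [Fintype ι] (r n : ℕ) extends
    Fan N ι r n where
  /-- the twist -/
  γ : (N →+ ℤ) →+ P
  /-- the equations of the branch divisors `D_t` -/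
  F : ∀ t, T.Sec (γ (x t))
  nonzero : ∀ t, T.NonZero (F t)
  /-- the divisors `D_t` have a common point -/
  meet : ∃ p : T.Pt ℂ, ∀ t, T.ev (F t) p = 0

variable {T : Var P} {N ι : Type} [AddCommGroup N] [Fintype ι] {r n : ℕ}

/-- The relation `(-γ(u); u(s_i)) ~ 0` for `u` in the dual lattice. -/
def Datum.rel (D : Datum T N ι r n) : (N →+ ℤ) →+ P × (ι → ℤ) where
  toFun u := (-D.γ u, fun i => u (D.s i))
  map_zero' := by
    ext1
    · simp
    · funext i
      simp
  map_add' u v := by
    ext1
    · simp [add_comm]
    · funext i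
      simp

/-- The group of line bundles on `X`: pairs `(L; a)`, `L` in `P` and `a_i ∈ ℤ`, modulo the relations. The
pair `(L; a)` is the sum of the pullback of `L` and of the `a_i D_i`, `D_i` the divisor `y_i = 0`. -/
abbrev Datum.Pic (D : Datum T N ι r n) : Type := (P × (ι → ℤ)) ⧸ D.rel.range

/-- The line bundle `(L; a)`. -/
def Datum.O (D : Datum T N ι r n) (L : P) (a : ι → ℤ) : D.Pic := QuotientAddGroup.mk (L, a)

/-- The canonical bundle of `X`, if `κ` is the one of `T`: `K_X = K_T + D_1 + ... + D_r - ∑ D_i`. -/
def Datum.K (D : Datum T N ι r n) (κ : P) : D.Pic := D.O (κ + ∑ t, D.γ (D.x t)) fun _ => -1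

theorem Datum.mk_eq (D : Datum T N ι r n) {L L' : P} {a a' : ι → ℤ} (u : N →+ ℤ)
    (h1 : L' = L - D.γ u) (h2 : ∀ i, a' i = a i + u (D.s i)) : D.O L' a' = D.O L a := by
  unfold Datum.O
  rw [QuotientAddGroup.eq]
  refine ⟨-u, ?_⟩
  ext1
  · simp only [Datum.rel, AddMonoidHom.coe_mk, ZeroHom.coe_mk, map_neg, neg_neg]
    simp [h1]
  · funext i
    have := h2 i
    simp only [Datum.rel, AddMonoidHom.coe_mk, ZeroHom.coe_mk, AddMonoidHom.neg_apply]
    simp [this]

theorem Datum.of_mk_eq (D : Datum T N ι r n) {L L' : P} {a a' : ι → ℤ} (h : D.O L' a' = D.O L a) :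
    ∃ u : N →+ ℤ, L' = L - D.γ u ∧ ∀ i, a' i = a i + u (D.s i) := by
  unfold Datum.O at h
  rw [QuotientAddGroup.eq] at h
  obtain ⟨u, hu⟩ := h
  have h1 := congrArg Prod.fst hu
  have h2 := congrArg Prod.snd hu
  simp only [Datum.rel, AddMonoidHom.coe_mk, ZeroHom.coe_mk] at h1 h2
  refine ⟨-u, ?_, fun i => ?_⟩
  · have : -D.γ u = -L' + L := h1
    rw [map_neg, this]
    abel
  · have h3 : u (D.s i) = -a' i + a i := congrFun h2 i
    rw [AddMonoidHom.neg_apply, h3]
    ring

theorem Datum.O_add (D : Datum T N ι r n) (L L' : P) (a a' : ι → ℤ) :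
    D.O L a + D.O L' a' = D.O (L + L') (a + a') := rfl

theorem Datum.O_smul (D : Datum T N ι r n) (k : ℕ) (L : P) (a : ι → ℤ) :
    k • D.O L a = D.O (k • L) (k • a) := rfl

theorem Datum.O_surj (D : Datum T N ι r n) (A : D.Pic) : ∃ L a, A = D.O L a := by
  obtain ⟨⟨L, a⟩, rfl⟩ := QuotientAddGroup.mk_surjective A
  exact ⟨L, a, rfl⟩

end Pool.Agent.U660.FT
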