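import Pool.Agent.U660.FT.Mod
import Pool.Agent.U660.FT.Big

/-!
# The vertices of the polyhedra of ample line bundles
-/

set_option autoImplicit false
set_option maxHeartbeats 1000000

namespace Pool.Agent.U660.FT

section fan

variable {N ι : Type} [AddCommGroup N] [Fintype ι] [DecidableEq ι] {r n : ℕ}

theorem Fan.dual (D : Fan N ι r n) {σ : Finset ι} (hσ : σ ∈ D.S) : ∃ e : ι → (N →+ ℤ),
    (∀ i ∈ σ, ∀ j ∈ σ, e i (D.s j) = if i = j then 1 else 0) ∧
      ∀ v, v = ∑ i ∈ σ, e i v • D.s i := by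
  classical
  obtain ⟨b, hb⟩ := D.basis σ hσ
  refine ⟨fun i => if h : i ∈ σ then (b.coord ⟨i, h⟩).toAddMonoidHom else 0, ?_, ?_⟩
  · intro i hi j hj
    simp only [dif_pos hi]
    have h1 : D.s j = b ⟨j, hj⟩ := (hb ⟨j, hj⟩).symm
    rw [h1]
    show b.coord ⟨i, hi⟩ (b ⟨j, hj⟩) = _
    rw [Module.Basis.coord_apply, Module.Basis.repr_self, Finsupp.single_apply]
    by_cases h : i = j
    · subst h
      simp
    · rw [if_neg h, if_neg]
      intro h'
      exact h (congrArg Subtype.val h').symm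
  · intro v
    conv_lhs => rw [← b.sum_repr v]
    rw [← Finset.sum_coe_sort σ]
    refine Finset.sum_congr rfl fun i _ => ?_
    rw [hb i]
    simp only [dif_pos i.2]
    rfl

open Classical in
/-- The dual basis. -/
noncomputable def Fan.e (D : Fan N ι r n) (σ : Finset ι) : ι → (N →+ ℤ) :=
  if h : σ ∈ D.S then (D.dual h).choose else 0

theorem Fan.e_apply (D : Fan N ι r n) {σ : Finset ι} (hσ : σ ∈ D.S) {i j : ι} (hi : i ∈ σ)
    (hj : j ∈ σ) : D.e σ i (D.s j) = if i = j then 1 else 0 := by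
  unfold Fan.e
  rw [dif_pos hσ]
  exact (D.dual hσ).choose_spec.1 i hi j hj

theorem Fan.expand (D : Fan N ι r n) {σ : Finset ι} (hσ : σ ∈ D.S) (v : N) :
    v = ∑ i ∈ σ, D.e σ i v • D.s i := by
  unfold Fan.e
  rw [dif_pos hσ]
  exact (D.dual hσ).choose_spec.2 v

theorem Fan.eval (D : Fan N ι r n) {σ : Finset ι} (hσ : σ ∈ D.S) (u : N →+ ℤ) (v : N) :
    u v = ∑ i ∈ σ, D.e σ i v * u (D.s i) := by
  conv_lhs => rw [D.expand hσ v]
  rw [map_sum]
  refine Finset.sum_congr rfl fun i _ => ?_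
  rw [map_zsmul, smul_eq_mul]

theorem Fan.ext (D : Fan N ι r n) {σ : Finset ι} (hσ : σ ∈ D.S) {u u' : N →+ ℤ}
    (h : ∀ i ∈ σ, u (D.s i) = u' (D.s i)) : u = u' := by
  ext v
  rw [D.eval hσ u, D.eval hσ u']
  exact Finset.sum_congr rfl fun i hi => by rw [h i hi]

/-- The linear form with the values `-a_i` at the `s_i`, `i` in `σ`. -/
noncomputable def Fan.u (D : Fan N ι r n) (σ : Finset ι) (a : ι → ℤ) : N →+ ℤ :=
  -∑ i ∈ σ, a i • D.e σ i

theorem sum_apply' {κ : Type} (s : Finset κ) (f : κ → (N →+ ℤ)) (v : N) :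
    (∑ i ∈ s, f i) v = ∑ i ∈ s, f i v := by
  classical
  induction s using Finset.induction_on with
  | empty => rfl
  | insert i s hi ih => rw [Finset.sum_insert hi, Finset.sum_insert hi, AddMonoidHom.add_apply, ih]

theorem Fan.u_apply (D : Fan N ι r n) {σ : Finset ι} (hσ : σ ∈ D.S) (a : ι → ℤ) {j : ι}
    (hj : j ∈ σ) : D.u σ a (D.s j) = -a j := by
  unfold Fan.u
  rw [AddMonoidHom.neg_apply, sum_apply', Finset.sum_eq_single j]
  · have h1 : (a j • D.e σ j) (D.s j) = a j * D.e σ j (D.s j) := by simp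
    rw [h1, D.e_apply hσ hj hj, if_pos rfl, mul_one]
  · intro i hi hij
    have h1 : (a i • D.e σ i) (D.s j) = a i * D.e σ i (D.s j) := by simp
    rw [h1, D.e_apply hσ hi hj, if_neg hij, mul_zero]
  · intro h
    exact absurd hj h

/-- The facet of `σ` opposite to `s_i` is not in the boundary of the support. -/
def Fan.Interior (D : Fan N ι r n) (σ : Finset ι) (i : ι) : Prop :=
  ∀ t, 0 < D.x t (D.s i) → ∃ j ∈ σ, j ≠ i ∧ 0 < D.x t (D.s j)

theorem Fan.boundary (D : Fan N ι r n) {σ : Finset ι} (hσ : σ ∈ D.S) {i : ι} (hi : i ∈ σ)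
    (h : ¬ D.Interior σ i) : ∃ t, 0 < D.x t (D.s i) ∧ (∀ j ∈ σ, j ≠ i → D.x t (D.s j) = 0) ∧
      D.x t = D.x t (D.s i) • D.e σ i := by
  unfold Fan.Interior at h
  push Not at h
  obtain ⟨t, ht, h⟩ := h
  have h1 : ∀ j ∈ σ, j ≠ i → D.x t (D.s j) = 0 := fun j hj hji =>
    le_antisymm (h j hj hji) (D.pos t j)
  refine ⟨t, ht, h1, D.ext hσ fun j hj => ?_⟩
  have h2 : (D.x t (D.s i) • D.e σ i) (D.s j) = D.x t (D.s i) * D.e σ i (D.s j) := by simp
  rw [h2, D.e_apply hσ hi hj]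
  by_cases hji : j = i
  · subst hji
    simp
  · rw [h1 j hj hji, if_neg (fun h => hji h.symm), mul_zero]

theorem zero_of_sum {κ : Type} (s : Finset κ) (f : κ → ℤ) (h0 : ∀ j ∈ s, 0 ≤ f j)
    (h : ∑ j ∈ s, f j = 0) : ∀ j ∈ s, f j = 0 := (Finset.sum_eq_zero_iff_of_nonneg h0).1 h

/-- The neighbouring vertex. -/
theorem Fan.next (D : Fan N ι r n) {σ : Finset ι} (hσ : σ ∈ D.S) {i : ι} (hi : i ∈ σ)
    (hI : D.Interior σ i) {a : ι → ℤ}
    (hA : ∀ τ ∈ D.S, ∀ j, j ∉ τ → 1 ≤ a j + D.u τ a (D.s j)) :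
    ∃ τ ∈ D.S, ∃ l : ℕ, 1 ≤ l ∧ D.u τ a = D.u σ a + l • D.e σ i := by
  classical
  set Df : Finset ι → (N →+ ℤ) := fun τ => D.u τ a - D.u σ a with hDf
  have hge : ∀ τ ∈ D.S, ∀ j, 0 ≤ a j + D.u τ a (D.s j) := by
    intro τ hτ j
    by_cases hj : j ∈ τ
    · rw [D.u_apply hτ a hj]
      simp
    · linarith [hA τ hτ j hj]
  obtain ⟨m, hm1, hm2⟩ : ∃ m : ℕ, (∀ t, D.x t (D.s i) ≤ m) ∧ ∀ τ ∈ D.S, Df τ (D.s i) < m := by
    refine ⟨(∑ t, (D.x t (D.s i)).natAbs) + (∑ τ ∈ D.S, (Df τ (D.s i)).natAbs) + 1,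
      fun t => ?_, fun τ hτ => ?_⟩
    · have h2 : (D.x t (D.s i)).natAbs ≤ ∑ t, (D.x t (D.s i)).natAbs :=
        Finset.single_le_sum (f := fun t => (D.x t (D.s i)).natAbs) (fun _ _ => Nat.zero_le _)
          (Finset.mem_univ t)
      omega
    · have h2 : (Df τ (D.s i)).natAbs ≤ ∑ τ ∈ D.S, (Df τ (D.s i)).natAbs :=
        Finset.single_le_sum (f := fun τ => (Df τ (D.s i)).natAbs) (fun _ _ => Nat.zero_le _) hτ
      omega
  set f : N := ∑ j ∈ σ.erase i, D.s j with hf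
  obtain ⟨τ, hτ, w, hw, hwv⟩ := D.cover (m • f - D.s i) (by
    intro t
    rw [map_sub, map_nsmul, hf, map_sum, nsmul_eq_mul]
    have h0 : 0 ≤ ∑ j ∈ σ.erase i, D.x t (D.s j) := Finset.sum_nonneg fun j _ => D.pos t j
    rcases (D.pos t i).eq_or_lt with h | h
    · rw [← h]
      have : (0 : ℤ) ≤ (m : ℤ) * ∑ j ∈ σ.erase i, D.x t (D.s j) := mul_nonneg (by positivity) h0
      linarith
    · obtain ⟨j, hj, hji, hjp⟩ := hI t h
      have h1 : 1 ≤ ∑ j ∈ σ.erase i, D.x t (D.s j) := by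
        have h2 : D.x t (D.s j) ≤ ∑ j ∈ σ.erase i, D.x t (D.s j) :=
          Finset.single_le_sum (f := fun j => D.x t (D.s j)) (fun k _ => D.pos t k)
            (Finset.mem_erase.2 ⟨hji, hj⟩)
        linarith
      have h3 : D.x t (D.s i) ≤ m := hm1 t
      have h4 : (m : ℤ) * 1 ≤ (m : ℤ) * ∑ j ∈ σ.erase i, D.x t (D.s j) :=
        mul_le_mul_of_nonneg_left h1 (Int.natCast_nonneg m)
      linarith)
  have hD1 : ∀ j ∈ σ, 0 ≤ Df τ (D.s j) := by
    intro j hj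
    have h1 := hge τ hτ j
    rw [hDf]
    dsimp only
    rw [AddMonoidHom.sub_apply, D.u_apply hσ a hj]
    linarith
  have hD2 : Df τ (m • f - D.s i) ≤ 0 := by
    rw [hwv, map_sum]
    refine Finset.sum_nonpos fun j _ => ?_
    rw [map_nsmul, nsmul_eq_mul]
    by_cases hj : j ∈ τ
    · have h1 := hge σ hσ j
      have h2 : Df τ (D.s j) ≤ 0 := by
        rw [hDf]
        dsimp only
        rw [AddMonoidHom.sub_apply, D.u_apply hτ a hj]
        linarith
      exact mul_nonpos_of_nonneg_of_nonpos (by positivity) h2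
    · rw [hw j hj]
      simp
  have hD3 : (m : ℤ) * ∑ j ∈ σ.erase i, Df τ (D.s j) ≤ Df τ (D.s i) := by
    rw [map_sub, map_nsmul, hf, map_sum, nsmul_eq_mul] at hD2
    linarith
  have hmD : Df τ (D.s i) < m := hm2 τ hτ
  have hsum0 : ∑ j ∈ σ.erase i, Df τ (D.s j) = 0 := by
    have h0 : 0 ≤ ∑ j ∈ σ.erase i, Df τ (D.s j) :=
      Finset.sum_nonneg fun j hj => hD1 j (Finset.mem_of_mem_erase hj)
    by_contra hne
    have h1 : 1 ≤ ∑ j ∈ σ.erase i, Df τ (D.s j) := by omega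
    have h2 : (m : ℤ) * 1 ≤ (m : ℤ) * ∑ j ∈ σ.erase i, Df τ (D.s j) :=
      mul_le_mul_of_nonneg_left h1 (Int.natCast_nonneg m)
    linarith
  have hzero : ∀ j ∈ σ, j ≠ i → Df τ (D.s j) = 0 := by
    intro j hj hji
    exact zero_of_sum (σ.erase i) (fun j => Df τ (D.s j))
      (fun j hj => hD1 j (Finset.mem_of_mem_erase hj)) hsum0 j (Finset.mem_erase.2 ⟨hji, hj⟩)
  obtain ⟨l, hl⟩ := Int.eq_ofNat_of_zero_le (hD1 i hi)
  have hu : D.u τ a = D.u σ a + l • D.e σ i := by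
    refine D.ext hσ fun j hj => ?_
    have h1 : (l • D.e σ i) (D.s j) = l * D.e σ i (D.s j) := by simp
    rw [AddMonoidHom.add_apply, h1, D.e_apply hσ hi hj]
    have h2 : Df τ (D.s j) = D.u τ a (D.s j) - D.u σ a (D.s j) := rfl
    by_cases hji : j = i
    · subst hji
      rw [if_pos rfl, mul_one]
      linarith
    · rw [if_neg (fun h => hji h.symm), mul_zero]
      linarith [hzero j hj hji]
  refine ⟨τ, hτ, l, ?_, hu⟩
  by_contra hl0
  have hl0 : l = 0 := by omega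
  subst hl0
  rw [zero_smul, add_zero] at hu
  -- the cone `τ` is contained in `σ`
  have hsub : ∀ j ∈ τ, j ∈ σ := by
    intro j hj
    by_contra hjσ
    have h1 := hA σ hσ j hjσ
    rw [← hu, D.u_apply hτ a hj] at h1
    linarith
  have h1 : D.e σ i (m • f - D.s i) = -1 := by
    rw [map_sub, map_nsmul, hf, map_sum, D.e_apply hσ hi hi, if_pos rfl,
      Finset.sum_eq_zero fun j hj => ?_]
    · simp
    · rw [D.e_apply hσ hi (Finset.mem_of_mem_erase hj),
        if_neg fun h => (Finset.ne_of_mem_erase hj) h.symm]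
  have h2 : 0 ≤ D.e σ i (m • f - D.s i) := by
    rw [hwv, map_sum]
    refine Finset.sum_nonneg fun j _ => ?_
    rw [map_nsmul, nsmul_eq_mul]
    by_cases hj : j ∈ τ
    · rw [D.e_apply hσ hi (hsub j hj)]
      split_ifs <;> positivity
    · rw [hw j hj]
      simp
  linarith

end fan

end Pool.Agent.U660.FT
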