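import Pool.Agent.U660.FT.Vert

/-!
# Adjoint line bundles on toroidal modifications
-/

set_option autoImplicit false
set_option maxHeartbeats 1000000

namespace Pool.Agent.U660.FT

variable {P : Type} [AddCommGroup P] {T : Var P} {N ι : Type} [AddCommGroup N] [Fintype ι]
  [DecidableEq ι] {r n : ℕ} (D : Datum T N ι r n)

omit [DecidableEq ι] in
theorem Datum.O_sum {m : ℕ} (α : Fin m → P) (a : Fin m → ι → ℤ) :
    ∑ l, D.O (α l) (a l) = D.O (∑ l, α l) (∑ l, a l) := by
  classical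
  have : ∀ s : Finset (Fin m), ∑ l ∈ s, D.O (α l) (a l) = D.O (∑ l ∈ s, α l) (∑ l ∈ s, a l) := by
    intro s
    induction s using Finset.induction_on with
    | empty => rfl
    | insert i s hi ih =>
      rw [Finset.sum_insert hi, Finset.sum_insert hi, Finset.sum_insert hi, ih, D.O_add]
  exact this _

variable {m : ℕ} {α : Fin m → P} {a : Fin m → ι → ℤ}

/-- The exponents at the cone `σ`. -/
noncomputable def Datum.ν (D : Datum T N ι r n) (σ : Finset ι) (a : Fin m → ι → ℤ) (k : ι → ℕ)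
    (i : ι) : ℕ := (-1 + ∑ l, a l i + D.w σ a k (D.s i)).toNat

theorem Datum.sec (κ : P) (σ : Finset ι) (k : ι → ℕ)
    (hν : ∀ i, 0 ≤ -1 + ∑ l, a l i + D.w σ a k (D.s i))
    (s : T.Sec (κ + (∑ t, D.γ (D.x t) + ∑ l, α l - D.γ (D.w σ a k)))) :
    ∃ f : D.X.Sec (D.K κ + ∑ l, D.O (α l) (a l)),
      ∀ (R : Type) [CommRing R] [Algebra ℂ R] (v : D.X.Pt R),
        D.X.ev f v = T.ev s v.1.1 * ∏ i, v.1.2 i ^ D.ν σ a k i := by
  refine ⟨⟨⟨_, s, D.ν σ a k⟩, ?_⟩, fun R _ _ v => rfl⟩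
  unfold Datum.Term.cls Datum.K
  rw [D.O_sum, D.O_add]
  refine D.mk_eq (D.w σ a k) ?_ fun i => ?_
  · dsimp only
    abel
  · dsimp only
    rw [Datum.ν, Int.toNat_of_nonneg (hν i), Pi.add_apply, Finset.sum_apply]

open Classical in
/-- Every maximal cone has at most `k` facets which are not contained in the boundary of the support of
the fan. (This always holds with `k = n`.) -/
def Fan.AtMost (D : Fan N ι r n) (k : ℕ) : Prop :=
  ∀ σ ∈ D.S, (σ.filter fun i => D.Interior σ i).card ≤ k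

omit [DecidableEq ι] in
theorem Fan.atMost (D : Fan N ι r n) : D.AtMost n := by
  classical
  intro σ hσ
  exact (Finset.card_filter_le _ _).trans (D.card σ hσ).le

/-- The bound for the weights of the boundary facets. -/
theorem Datum.one_le {σ : Finset ι} {i : ι} (t : Fin r)
    (h : D.x t = D.x t (D.s i) • D.e σ i) : 1 ≤ D.x t (D.s i) := by
  have h1 : D.x t (D.s i) ≠ 0 := by
    intro h0
    rw [h0, zero_smul] at h
    exact D.indep.ne_zero t h
  have h2 := D.pos t i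
  omega

theorem adj_of_bigSum (hT : T.Irred) (hE : ∀ B, T.Big B → T.Ample B) {Q : P → Prop} {κ L : P}
    {b : ℕ} (hb : 1 ≤ b) (hm : b ≤ m) (h : T.Adjoint Q κ b) (hL : T.BigSum m L) : Q (κ + L) := by
  obtain ⟨B, hB, rfl⟩ := BigSum.less hT hb hm hL
  exact h B fun l => hE _ (hB l)

/-- **Global generation.** -/
theorem Datum.gg (hT : T.Irred) (hE : ∀ B, T.Big B → T.Ample B) {κ : P} {b K : ℕ} (hb : 1 ≤ b)
    (hm : b ≤ m) (hK : D.AtMost K) (hmn : K + 1 ≤ m) (h : T.Adjoint T.GG κ b) : D.X.Adjoint D.X.GG (D.K κ) m := by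
  classical
  intro A hA
  choose α a hαa using fun l => D.O_surj (A l)
  obtain rfl : A = fun l => D.O (α l) (a l) := funext hαa
  intro R _ _ _ v
  obtain ⟨-, σ, hσ, hy⟩ := v.2
  have hle : ∑ i ∈ σ.filter (fun i => D.Interior σ i), 1 ≤ K := by
    rw [Finset.sum_const, smul_eq_mul, mul_one]
    exact hK σ hσ
  obtain ⟨h1, h2, h3⟩ := D.vertex hA hT (by omega) hσ (fun _ => 1) (fun i _ t ht => by
    simpa using D.one_le t ht) (by omega)
  have hν : ∀ i, 0 ≤ -1 + ∑ l, a l i + D.w σ a (fun _ => 1) (D.s i) := by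
    intro i
    by_cases hi : i ∈ σ
    · rw [h2 i hi]
      simp
    · have h4 := h3 i hi
      have h5 : ∑ i ∈ σ.filter (fun i => D.Interior σ i), (((1 : ℕ)) : ℤ) ≤ K := by
        exact_mod_cast hle
      have h6 : ((K : ℤ) + 1) ≤ m := by exact_mod_cast hmn
      linarith
  obtain ⟨s, hs⟩ := adj_of_bigSum hT hE hb hm h h1 R v.1.1
  obtain ⟨f, hf⟩ := D.sec κ σ (fun _ => 1) hν s
  refine ⟨f, ?_⟩
  rw [hf]
  refine hs.mul (prod_unit _ _ fun i hi => hy i fun hiσ => hi ?_)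
  rw [Datum.ν, h2 i hiσ]
  simp

omit [DecidableEq ι] in
theorem cancel {R : Type} [CommRing R] [DecidableEq ι] {σ : Finset ι} {i : ι}
    (y y' : ι → R) (e : ι → ℕ) (he : e i = 1) (he' : ∀ j ∈ σ, j ≠ i → e j = 0)
    (hy : ∀ j, j ∉ σ → IsUnit (y j)) (hyy : ∀ j, j ∉ σ → y j = y' j)
    (h : ∏ j, y j ^ e j = ∏ j, y' j ^ e j) : y i = y' i := by
  rw [← Finset.mul_prod_erase Finset.univ _ (Finset.mem_univ i),
    ← Finset.mul_prod_erase Finset.univ (fun j => y' j ^ e j) (Finset.mem_univ i), he, pow_one,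
    pow_one] at h
  have h1 : ∏ j ∈ Finset.univ.erase i, y j ^ e j = ∏ j ∈ Finset.univ.erase i, y' j ^ e j := by
    refine Finset.prod_congr rfl fun j hj => ?_
    by_cases hjσ : j ∈ σ
    · rw [he' j hjσ (Finset.ne_of_mem_erase hj), pow_zero, pow_zero]
    · rw [hyy j hjσ]
  have h2 : IsUnit (∏ j ∈ Finset.univ.erase i, y j ^ e j) := by
    rw [IsUnit.prod_iff]
    intro j hj
    by_cases hjσ : j ∈ σ
    · rw [he' j hjσ (Finset.ne_of_mem_erase hj), pow_zero]
      exact isUnit_one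
    · exact (hy j hjσ).pow _
  rw [← h1] at h
  exact h2.mul_right_cancel h

theorem Fan.form {D : Fan N ι r n} {σ : Finset ι} (hσ : σ ∈ D.S) (u : N →+ ℤ) :
    u = ∑ i ∈ σ, u (D.s i) • D.e σ i := by
  ext v
  rw [D.eval hσ u v, sum_apply']
  refine Finset.sum_congr rfl fun i _ => ?_
  have : (u (D.s i) • D.e σ i) v = u (D.s i) * D.e σ i v := by simp
  rw [this, mul_comm]

/-- The homomorphism on the group of line bundles of `X` with given values on `P` and on the `D_j`, `j`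
not in `σ`. -/
theorem Datum.char {G : Type} [AddCommGroup G] {σ : Finset ι} (hσ : σ ∈ D.S)
    (χ : P →+ G) (μ : ι → G) : ∃ χ' : D.Pic →+ G,
      (∀ L, χ' (D.O L 0) = χ L) ∧ ∀ j, j ∉ σ → χ' (D.O 0 (Pi.single j 1)) = μ j := by
  classical
  set μ' : ι → G := fun i => if i ∈ σ then
    χ (D.γ (D.e σ i)) - ∑ j ∈ Finset.univ \ σ, D.e σ i (D.s j) • μ j else μ i with hμ'
  let φ : P × (ι → ℤ) →+ G :=
    { toFun := fun v => χ v.1 + ∑ i, v.2 i • μ' i
      map_zero' := by simp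
      map_add' := fun v w => by
        simp only [Prod.fst_add, Prod.snd_add, map_add, Pi.add_apply, add_smul,
          Finset.sum_add_distrib]
        abel }
  have hφ : ∀ v, φ v = χ v.1 + ∑ i, v.2 i • μ' i := fun _ => rfl
  have hker : ∀ v ∈ D.rel.range, φ v = 0 := by
    rintro v ⟨u, rfl⟩
    rw [hφ]
    have h1 : (D.rel u).1 = -D.γ u := rfl
    have h2 : ∀ i, (D.rel u).2 i = u (D.s i) := fun _ => rfl
    rw [h1, Finset.sum_congr rfl fun i _ => by rw [h2 i]]
    rw [← Finset.sum_sdiff (Finset.subset_univ σ)]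
    have h3 : ∑ j ∈ Finset.univ \ σ, u (D.s j) • μ' j = ∑ j ∈ Finset.univ \ σ, u (D.s j) • μ j := by
      refine Finset.sum_congr rfl fun j hj => ?_
      rw [hμ']
      dsimp only
      rw [if_neg (Finset.mem_sdiff.1 hj).2]
    have h4 : ∑ i ∈ σ, u (D.s i) • μ' i = ∑ i ∈ σ, u (D.s i) • χ (D.γ (D.e σ i)) -
        ∑ j ∈ Finset.univ \ σ, u (D.s j) • μ j := by
      have h5 : ∀ i ∈ σ, u (D.s i) • μ' i = u (D.s i) • χ (D.γ (D.e σ i)) -
          ∑ j ∈ Finset.univ \ σ, (D.e σ i (D.s j) * u (D.s i)) • μ j := by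
        intro i hi
        rw [hμ']
        dsimp only
        rw [if_pos hi, smul_sub, Finset.smul_sum]
        congr 1
        refine Finset.sum_congr rfl fun j _ => ?_
        rw [smul_smul, mul_comm]
      rw [Finset.sum_congr rfl h5, Finset.sum_sub_distrib, Finset.sum_comm]
      congr 1
      refine Finset.sum_congr rfl fun j _ => ?_
      rw [← Finset.sum_smul, ← D.eval hσ u (D.s j)]
    have h6 : χ (-D.γ u) = -∑ i ∈ σ, u (D.s i) • χ (D.γ (D.e σ i)) := by
      conv_lhs => rw [Fan.form hσ u]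
      simp only [map_neg, map_sum, map_zsmul]
    rw [h3, h4, h6]
    abel
  refine ⟨QuotientAddGroup.lift D.rel.range φ hker, fun L => ?_, fun j hj => ?_⟩
  · show φ (L, 0) = χ L
    rw [hφ]
    simp
  · show φ (0, Pi.single j 1) = μ j
    rw [hφ, map_zero, zero_add, Finset.sum_eq_single j]
    · dsimp only
      rw [Pi.single_eq_same, one_smul, hμ']
      dsimp only
      rw [if_neg hj]
    · intro i _ hij
      dsimp only
      rw [Pi.single_eq_of_ne hij, zero_smul]
    · intro h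
      exact absurd (Finset.mem_univ j) h

/-- **Very ampleness.** -/
theorem Datum.va (hT : T.Irred) (hE : ∀ B, T.Big B → T.Ample B) {κ : P} {b K : ℕ} (hb : 1 ≤ b)
    (hm : b ≤ m) (hK : D.AtMost K) (hmn : K + 2 ≤ m) (h : T.Adjoint T.VA κ b) : D.X.Adjoint D.X.VA (D.K κ) m := by
  classical
  intro A hA
  have hgg := D.gg hT hE hb hm hK (by omega) (fun B hB => (h B hB).1) A hA
  refine ⟨hgg, ?_⟩
  choose α a hαa using fun l => D.O_surj (A l)
  obtain rfl : A = fun l => D.O (α l) (a l) := funext hαa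
  intro R _ _ _ v v' z hz
  obtain ⟨-, σ, hσ, hy⟩ := v.2
  have hmn' : ((K : ℤ) + 2) ≤ m := by exact_mod_cast hmn
  have hle : ∑ i ∈ σ.filter (fun i => D.Interior σ i), 1 ≤ K := by
    rw [Finset.sum_const, smul_eq_mul, mul_one]
    exact hK σ hσ
  have hle' : ∑ i ∈ σ.filter (fun i => D.Interior σ i), (((1 : ℕ)) : ℤ) ≤ K := by
    exact_mod_cast hle
  obtain ⟨h1, h2, h3⟩ := D.vertex hA hT (by omega) hσ (fun _ => 1) (fun i _ t ht => by
    simpa using D.one_le t ht) (by omega)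
  have hν1 : ∀ i ∈ σ, D.ν σ a (fun _ => 1) i = 0 := by
    intro i hi
    rw [Datum.ν, h2 i hi]
    simp
  have hν2 : ∀ i, i ∉ σ → D.ν σ a (fun _ => 1) i ≠ 0 := by
    intro i hi
    have h4 := h3 i hi
    rw [Datum.ν]
    omega
  have hν : ∀ i, 0 ≤ -1 + ∑ l, a l i + D.w σ a (fun _ => 1) (D.s i) := by
    intro i
    by_cases hi : i ∈ σ
    · rw [h2 i hi]
      simp
    · have h4 := h3 i hi
      linarith
  have hVA := adj_of_bigSum hT hE hb hm h h1
  -- `z` is a unit
  have hzu : IsUnit z := by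
    obtain ⟨f, hf⟩ := hgg R v'
    rw [hz f] at hf
    exact isUnit_of_mul_isUnit_left hf
  set Y : R := ∏ i, v.1.2 i ^ D.ν σ a (fun _ => 1) i with hY
  set Y' : R := ∏ i, v'.1.2 i ^ D.ν σ a (fun _ => 1) i with hY'
  have hYu : IsUnit Y := prod_unit _ _ fun i hi => hy i fun hiσ => hi (hν1 i hiσ)
  have hrel : ∀ s : T.Sec (κ + (∑ t, D.γ (D.x t) + ∑ l, α l - D.γ (D.w σ a fun _ => 1))),
      T.ev s v'.1.1 * Y' = z * (T.ev s v.1.1 * Y) := by
    intro s
    obtain ⟨f, hf⟩ := D.sec κ σ (fun _ => 1) hν s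
    have := hz f
    rwa [hf, hf] at this
  have hY'u : IsUnit Y' := by
    obtain ⟨s, hs⟩ := hVA.1 R v.1.1
    have h4 := hrel s
    have h5 : IsUnit (T.ev s v'.1.1 * Y') := by
      rw [h4]
      exact hzu.mul (hs.mul hYu)
    exact isUnit_of_mul_isUnit_right h5
  have hy' : ∀ j, j ∉ σ → IsUnit (v'.1.2 j) := fun j hj => unit_of_prod _ _ hY'u (hν2 j hj)
  obtain ⟨χ, hχ⟩ := hVA.2 R v.1.1 v'.1.1 (z * Y * (hY'u.unit⁻¹ : Rˣ)) (by
    intro s
    have h4 := hrel s
    have h5 : T.ev s v'.1.1 * Y' * (hY'u.unit⁻¹ : Rˣ) = T.ev s v'.1.1 := by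
      rw [mul_assoc, IsUnit.mul_val_inv, mul_one]
    rw [← h5, h4]
    ring)
  obtain ⟨χ', hχ1, hχ2⟩ := D.char hσ χ fun j => Additive.ofMul
    (if hj : j ∉ σ then (hy' j hj).unit * (hy j hj).unit⁻¹ else 1)
  have hχ1' : D.base χ' = χ := AddMonoidHom.ext hχ1
  set v'' : D.X.Pt R := D.X.act χ' v with hv''
  have hp'' : v''.1.1 = v'.1.1 := by
    rw [hv'']
    show T.act (D.base χ') v.1.1 = _
    rw [hχ1', hχ]
  have hy'' : ∀ j, j ∉ σ → v'.1.2 j = v''.1.2 j := by
    intro j hj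
    show _ = (D.coord χ' j : R) * v.1.2 j
    unfold Datum.coord
    rw [hχ2 j hj, toMul_ofMul, dif_pos hj]
    push_cast
    rw [mul_assoc, IsUnit.val_inv_mul, mul_one]
    rfl
  -- the values at `v'` and `v''` agree
  obtain ⟨z', hz'⟩ : ∃ z' : R, ∀ f : D.X.Sec (D.K κ + ∑ l, D.O (α l) (a l)),
      D.X.ev f v' = z' * D.X.ev f v'' := by
    refine ⟨z * ((χ' (D.K κ + ∑ l, D.O (α l) (a l))).toMul⁻¹ : Rˣ), fun f => ?_⟩
    rw [hz f, hv'', D.X.ev_act]
    rw [mul_assoc, ← mul_assoc (((χ' (D.K κ + ∑ l, D.O (α l) (a l))).toMul⁻¹ : Rˣ) : R),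
      Units.inv_mul, one_mul]
  have hprod : ∀ e : ι → ℕ, (∀ i ∈ σ, e i = 0) →
      ∏ i, v'.1.2 i ^ e i = ∏ i, v''.1.2 i ^ e i := by
    intro e he
    refine Finset.prod_congr rfl fun i _ => ?_
    by_cases hi : i ∈ σ
    · rw [he i hi, pow_zero, pow_zero]
    · rw [hy'' i hi]
  have hz1 : z' = 1 := by
    obtain ⟨s, hs⟩ := hVA.1 R v'.1.1
    obtain ⟨f, hf⟩ := D.sec κ σ (fun _ => 1) hν s
    have h4 := hz' f
    rw [hf, hf, hp'', ← hprod _ hν1] at h4
    have h5 : IsUnit (T.ev s v'.1.1 * Y') := hs.mul hY'u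
    have h6 : 1 * (T.ev s v'.1.1 * Y') = z' * (T.ev s v'.1.1 * Y') := by
      rw [one_mul]
      exact h4
    exact (h5.mul_right_cancel h6).symm
  refine ⟨χ', ?_⟩
  rw [← hv'']
  symm
  refine Subtype.ext (Prod.ext hp''.symm (funext fun i => ?_))
  by_cases hi : i ∈ σ
  · by_cases ht : ∃ t, D.x t = D.x t (D.s i) • D.e σ i ∧ D.x t (D.s i) = 1
    · obtain ⟨t, ht, ht1⟩ := ht
      refine cancel _ _ (fun j => (D.x t (D.s j)).toNat) (by
        rw [ht1]
        rfl) (fun j hj hji => ?_) hy' hy'' ?_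
      · have h4 : D.x t (D.s j) = 0 := by
          rw [ht, ht1, one_smul, D.e_apply hσ hi hj, if_neg fun h => hji h.symm]
        rw [h4]
        rfl
      · rw [← v'.2.1 t, ← v''.2.1 t, hp'']
    · push Not at ht
      set k : ι → ℕ := fun j => if j = i then 2 else 1 with hk
      have hksum : ∑ j ∈ σ.filter (fun j => D.Interior σ j), k j ≤ K + 1 := by
        have h6 : ∀ j, k j = 1 + if j = i then 1 else 0 := by
          intro j
          rw [hk]
          dsimp only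
          split_ifs <;> rfl
        rw [Finset.sum_congr rfl fun j _ => h6 j, Finset.sum_add_distrib, Finset.sum_ite_eq' _ i]
        have h7 : (if i ∈ σ.filter (fun j => D.Interior σ j) then 1 else 0) ≤ 1 := by
          split_ifs <;> omega
        omega
      have hksum' : ∑ j ∈ σ.filter (fun j => D.Interior σ j), (k j : ℤ) ≤ K + 1 := by
        exact_mod_cast hksum
      obtain ⟨g1, g2, g3⟩ := D.vertex hA hT (by omega) hσ k (fun j hj t hjt => by
        have h4 := D.one_le t hjt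
        rw [hk]
        dsimp only
        by_cases hji : j = i
        · subst hji
          rw [if_pos rfl]
          have := ht t hjt
          push_cast
          omega
        · rw [if_neg hji]
          simpa using h4) (by omega)
      have hνk : ∀ j, 0 ≤ -1 + ∑ l, a l j + D.w σ a k (D.s j) := by
        intro j
        by_cases hj : j ∈ σ
        · rw [g2 j hj]
          rw [hk]
          dsimp only
          split_ifs <;> simp
        · have h4 := g3 j hj
          linarith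
      obtain ⟨s, hs⟩ := (adj_of_bigSum hT hE hb hm h g1).1 R v'.1.1
      obtain ⟨f, hf⟩ := D.sec κ σ k hνk s
      have h4 := hz' f
      rw [hf, hf, hz1, one_mul, hp''] at h4
      refine cancel _ _ (D.ν σ a k) ?_ (fun j hj hji => ?_) hy' hy'' (hs.mul_left_cancel h4)
      · rw [Datum.ν, g2 i hi, hk]
        simp
      · rw [Datum.ν, g2 j hj, hk]
        simp [hji]
  · exact hy'' i hi

end Pool.Agent.U660.FT
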