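import Pool.Agent.U660.FT.Def

/-!
# The toroidal modification
-/

set_option autoImplicit false

namespace Pool.Agent.U660.FT

variable {P : Type} [AddCommGroup P] {T : Var P} {N ι : Type} [AddCommGroup N] [Fintype ι] {r n : ℕ}

/-- A point of the torsor over `X` with values in `R`: a point of the torsor over `T` and
`y ∈ R^ι` with `∏ y_i ^ (x_t(s_i)) = F_t` for all `t`, such that all `y_i` with `i` not in `σ` are units for
some maximal cone `σ`. -/
def Datum.OnX (D : Datum T N ι r n) {R : Type} [CommRing R] [Algebra ℂ R] (p : T.Pt R)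
    (y : ι → R) : Prop :=
  (∀ t, T.ev (D.F t) p = ∏ i, y i ^ (D.x t (D.s i)).toNat) ∧ ∃ σ ∈ D.S, ∀ i, i ∉ σ → IsUnit (y i)

/-- A section `s · ∏ y_i ^ a_i` of the line bundle `O(L; a)`, `s` a section of `L` on `T` and `a_i ≥ 0`. -/
structure Datum.Term (D : Datum T N ι r n) where
  /-- the line bundle on `T` -/
  L : P
  /-- the section -/
  s : T.Sec L
  /-- the exponents -/
  a : ι → ℕ

/-- The class of a section. -/
def Datum.Term.cls {D : Datum T N ι r n} (f : D.Term) : D.Pic := D.O f.L fun i => (f.a i : ℤ)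

/-- The homomorphism `L ↦ χ(L; 0)`. -/
def Datum.base (D : Datum T N ι r n) {R : Type} [CommRing R] (χ : D.Pic →+ Additive Rˣ) :
    P →+ Additive Rˣ where
  toFun L := χ (D.O L 0)
  map_zero' := χ.map_zero
  map_add' L L' := by
    rw [← map_add, D.O_add, add_zero]

/-- The unit `χ(D_i)`. -/
def Datum.coord [DecidableEq ι] (D : Datum T N ι r n) {R : Type} [CommRing R]
    (χ : D.Pic →+ Additive Rˣ) (i : ι) : Rˣ := (χ (D.O 0 (Pi.single i 1))).toMul

theorem Datum.char_eq [DecidableEq ι] (D : Datum T N ι r n) {R : Type} [CommRing R]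
    (χ : D.Pic →+ Additive Rˣ) (L : P) (a : ι → ℕ) :
    ((χ (D.O L fun i => (a i : ℤ))).toMul : R) =
      ((D.base χ L).toMul : R) * ∏ i, (D.coord χ i : R) ^ a i := by
  have h1 : D.O L (fun i => (a i : ℤ)) = D.O L 0 + ∑ i, a i • D.O 0 (Pi.single i 1) := by
    have h2 : ∀ s : Finset ι, ∑ i ∈ s, a i • D.O 0 (Pi.single i 1) =
        D.O 0 (∑ i ∈ s, a i • Pi.single i (1 : ℤ)) := by
      intro s
      classical
      induction s using Finset.induction_on with
      | empty => rfl
      | insert i s hi ih =>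
        rw [Finset.sum_insert hi, Finset.sum_insert hi, ih, D.O_smul, D.O_add, smul_zero, add_zero]
    rw [h2, D.O_add, add_zero, zero_add]
    congr 1
    funext i
    rw [Finset.sum_apply, Finset.sum_eq_single i]
    · simp
    · intro j _ hj
      simp [Pi.single_eq_of_ne' hj]
    · intro h
      exact absurd (Finset.mem_univ i) h
  rw [h1, map_add, map_sum]
  have h3 : ∀ s : Finset ι, ((∑ i ∈ s, χ (a i • D.O 0 (Pi.single i 1))).toMul : Rˣ) =
      ∏ i ∈ s, D.coord χ i ^ a i := by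
    intro s
    induction s using Finset.induction_on with
    | empty => rfl
    | insert i s hi ih =>
      rw [Finset.sum_insert hi, Finset.prod_insert hi, toMul_add, ih, map_nsmul, toMul_nsmul]
      rfl
  rw [toMul_add, h3]
  push_cast
  rfl

theorem Datum.base_eq [DecidableEq ι] (D : Datum T N ι r n) {R : Type} [CommRing R]
    (χ : D.Pic →+ Additive Rˣ) (t : Fin r) :
    ((D.base χ (D.γ (D.x t))).toMul : R) = ∏ i, (D.coord χ i : R) ^ (D.x t (D.s i)).toNat := by
  have h1 := D.char_eq χ 0 fun i => (D.x t (D.s i)).toNat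
  have h2 : D.O (D.γ (D.x t)) 0 = D.O 0 fun i => (((D.x t (D.s i)).toNat : ℕ) : ℤ) := by
    refine D.mk_eq (-D.x t) ?_ fun i => ?_
    · rw [map_neg]
      abel
    · rw [AddMonoidHom.neg_apply, Int.toNat_of_nonneg (D.pos t i)]
      simp
  have h3 : ((D.base χ (D.γ (D.x t))).toMul : R) = ((χ (D.O (D.γ (D.x t)) 0)).toMul : R) := rfl
  rw [h3, h2, h1, map_zero]
  simp

/-- The points of the torsor over `X` with values in `R`. -/
def Datum.XPt (D : Datum T N ι r n) (R : Type) [CommRing R] [Algebra ℂ R] : Type :=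
  {v : T.Pt R × (ι → R) // D.OnX v.1 v.2}

/-- The sections of a line bundle on `X`. -/
def Datum.XSec (D : Datum T N ι r n) (A : D.Pic) : Type := {f : D.Term // f.cls = A}

/-- The value of a section at a point. -/
def Datum.XEv (D : Datum T N ι r n) {R : Type} [CommRing R] [Algebra ℂ R] {A : D.Pic}
    (f : D.XSec A) (v : D.XPt R) : R := T.ev f.1.s v.1.1 * ∏ i, v.1.2 i ^ f.1.a i

theorem Datum.onX_act [DecidableEq ι] (D : Datum T N ι r n) {R : Type} [CommRing R] [Algebra ℂ R]
    (χ : D.Pic →+ Additive Rˣ) (v : D.XPt R) :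
    D.OnX (T.act (D.base χ) v.1.1) fun i => (D.coord χ i : R) * v.1.2 i := by
  obtain ⟨h1, σ, hσ, h2⟩ := v.2
  refine ⟨fun t => ?_, σ, hσ, fun i hi => ?_⟩
  · rw [T.ev_act, h1, D.base_eq]
    simp only [mul_pow, Finset.prod_mul_distrib]
  · exact (Units.isUnit _).mul (h2 i hi)

/-- The action of a homomorphism from the group of line bundles to the units. -/
def Datum.XAct [DecidableEq ι] (D : Datum T N ι r n) {R : Type} [CommRing R] [Algebra ℂ R]
    (χ : D.Pic →+ Additive Rˣ) (v : D.XPt R) : D.XPt R :=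
  ⟨(T.act (D.base χ) v.1.1, fun i => (D.coord χ i : R) * v.1.2 i), D.onX_act χ v⟩

theorem Datum.xEv_act [DecidableEq ι] (D : Datum T N ι r n) {R : Type} [CommRing R] [Algebra ℂ R]
    (χ : D.Pic →+ Additive Rˣ) (v : D.XPt R) {A : D.Pic} (f : D.XSec A) :
    D.XEv f (D.XAct χ v) = ((χ A).toMul : R) * D.XEv f v := by
  obtain ⟨f, rfl⟩ := f
  unfold Datum.XEv Datum.XAct
  dsimp only
  rw [T.ev_act, Datum.Term.cls, D.char_eq]
  simp only [mul_pow, Finset.prod_mul_distrib]
  ring

theorem Datum.one_cls (D : Datum T N ι r n) : (⟨0, T.one, 0⟩ : D.Term).cls = 0 := by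
  unfold Datum.Term.cls Datum.O
  have : ((0 : P), fun i : ι => (((0 : ι → ℕ) i : ℕ) : ℤ)) = 0 := by
    ext1
    · rfl
    · funext i
      simp
  rw [this]
  exact QuotientAddGroup.mk_zero _

/-- The section `1`. -/
def Datum.XOne (D : Datum T N ι r n) : D.XSec 0 := ⟨⟨0, T.one, 0⟩, D.one_cls⟩

theorem Datum.mul_cls (D : Datum T N ι r n) {A B : D.Pic} (f : D.XSec A) (g : D.XSec B) :
    (⟨f.1.L + g.1.L, T.mul f.1.s g.1.s, f.1.a + g.1.a⟩ : D.Term).cls = A + B := by
  obtain ⟨f, rfl⟩ := f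
  obtain ⟨g, rfl⟩ := g
  unfold Datum.Term.cls
  rw [D.O_add]
  congr 1

/-- The product of sections. -/
def Datum.XMul (D : Datum T N ι r n) {A B : D.Pic} (f : D.XSec A) (g : D.XSec B) :
    D.XSec (A + B) := ⟨⟨f.1.L + g.1.L, T.mul f.1.s g.1.s, f.1.a + g.1.a⟩, D.mul_cls f g⟩

theorem Datum.xEv_one (D : Datum T N ι r n) {R : Type} [CommRing R] [Algebra ℂ R] (v : D.XPt R) :
    D.XEv D.XOne v = 1 := by
  unfold Datum.XEv Datum.XOne
  dsimp only
  rw [T.ev_one]
  simp

theorem Datum.xEv_mul (D : Datum T N ι r n) {R : Type} [CommRing R] [Algebra ℂ R] (v : D.XPt R)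
    {A B : D.Pic} (f : D.XSec A) (g : D.XSec B) :
    D.XEv (D.XMul f g) v = D.XEv f v * D.XEv g v := by
  unfold Datum.XEv Datum.XMul
  dsimp only
  rw [T.ev_mul]
  simp only [Pi.add_apply, pow_add, Finset.prod_mul_distrib]
  ring

/-- The toroidal modification `X` of a toric bundle over an abelian cover of `T` given by `D`. -/
def Datum.X [DecidableEq ι] (D : Datum T N ι r n) : Var D.Pic where
  Pt R _ _ := D.XPt R
  Sec A := D.XSec A
  ev f v := D.XEv f v
  act χ v := D.XAct χ v
  ev_act χ v _ f := D.xEv_act χ v f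
  one := D.XOne
  ev_one v := D.xEv_one v
  mul f g := D.XMul f g
  ev_mul v _ _ f g := D.xEv_mul v f g

end Pool.Agent.U660.FT
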