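import Pool.Agent.U660.FT.Main

/-!
# Closed subvarieties of products of projective spaces
-/

set_option autoImplicit false
set_option maxHeartbeats 1000000

open MvPolynomial

namespace Pool.Agent.U660.FT

variable {h : ℕ} {d : Fin h → ℕ}

/-- The degree of the variable `x_(t, i)`. -/
def wt (d : Fin h → ℕ) (j : Σ t, Fin (d t + 1)) : Fin h → ℤ := Pi.single j.1 1

/-- A closed subset of the product of projective spaces of the dimensions `d_t`, given by
multihomogeneous equations. -/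
structure Closed (d : Fin h → ℕ) where
  /-- the equations -/
  G : Set (MvPolynomial (Σ t, Fin (d t + 1)) ℂ)
  hom : ∀ g ∈ G, ∃ L, IsWeightedHomogeneous (wt d) g L

theorem aeval_smul {R : Type} [CommRing R] [Algebra ℂ R] {f : MvPolynomial (Σ t, Fin (d t + 1)) ℂ}
    {L : Fin h → ℤ} (hf : IsWeightedHomogeneous (wt d) f L) (χ : (Fin h → ℤ) →+ Additive Rˣ)
    (x : (Σ t, Fin (d t + 1)) → R) :
    aeval (fun j => ((χ (wt d j)).toMul : R) * x j) f = ((χ L).toMul : R) * aeval x f := by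
  classical
  rw [aeval_def, aeval_def, eval₂_eq', eval₂_eq', Finset.mul_sum]
  refine Finset.sum_congr rfl fun e he => ?_
  have h1 := hf (mem_support_iff.1 he)
  have h2 : ((χ L).toMul : R) = ∏ j, ((χ (wt d j)).toMul : R) ^ e j := by
    rw [← h1, Finsupp.weight_apply, Finsupp.sum_fintype _ _ (by simp), map_sum]
    have h3 : ∀ s : Finset (Σ t, Fin (d t + 1)),
        ((∑ j ∈ s, χ (e j • wt d j)).toMul : Rˣ) = ∏ j ∈ s, (χ (wt d j)).toMul ^ e j := by
      intro s
      induction s using Finset.induction_on with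
      | empty => rfl
      | insert i s hi ih =>
        rw [Finset.sum_insert hi, Finset.prod_insert hi, toMul_add, ih, map_nsmul, toMul_nsmul]
    rw [h3]
    push_cast
    rfl
  rw [h2]
  simp only [mul_pow, Finset.prod_mul_distrib]
  ring

/-- The points with values in `R`: coordinates satisfying the equations such that for all `t` some
coordinate `x_(t, i)` is a unit. -/
def Closed.TPt (C : Closed d) (R : Type) [CommRing R] [Algebra ℂ R] : Type :=
  {x : (Σ t, Fin (d t + 1)) → R // (∀ t, ∃ i, IsUnit (x ⟨t, i⟩)) ∧ ∀ g ∈ C.G, aeval x g = 0}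

/-- The multihomogeneous polynomials of degree `L`. -/
def TSec (d : Fin h → ℕ) (L : Fin h → ℤ) : Type :=
  {f : MvPolynomial (Σ t, Fin (d t + 1)) ℂ // IsWeightedHomogeneous (wt d) f L}

theorem Closed.on_act (C : Closed d) {R : Type} [CommRing R] [Algebra ℂ R]
    (χ : (Fin h → ℤ) →+ Additive Rˣ) (x : C.TPt R) :
    (∀ t, ∃ i, IsUnit (((χ (wt d ⟨t, i⟩)).toMul : R) * x.1 ⟨t, i⟩)) ∧
      ∀ g ∈ C.G, aeval (fun j => ((χ (wt d j)).toMul : R) * x.1 j) g = 0 := by
  refine ⟨fun t => ?_, fun g hg => ?_⟩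
  · obtain ⟨i, hi⟩ := x.2.1 t
    exact ⟨i, (Units.isUnit _).mul hi⟩
  · obtain ⟨L, hL⟩ := C.hom g hg
    rw [aeval_smul hL, x.2.2 g hg, mul_zero]

/-- Multiplication of the coordinates by units. -/
def Closed.TAct (C : Closed d) {R : Type} [CommRing R] [Algebra ℂ R]
    (χ : (Fin h → ℤ) →+ Additive Rˣ) (x : C.TPt R) : C.TPt R :=
  ⟨fun j => ((χ (wt d j)).toMul : R) * x.1 j, C.on_act χ x⟩

/-- The closed subset as a variety with the group `ℤ^h` of line bundles: points are given by their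
coordinates, the sections of `O(L)` are the multihomogeneous polynomials of degree `L`. -/
noncomputable def Closed.T (C : Closed d) : Var (Fin h → ℤ) where
  Pt R _ _ := C.TPt R
  Sec L := TSec d L
  ev f x := aeval x.1 f.1
  act χ x := C.TAct χ x
  ev_act χ x _ f := aeval_smul f.2 χ x.1
  one := ⟨1, isWeightedHomogeneous_one ℂ _⟩
  ev_one _ := map_one _
  mul f g := ⟨f.1 * g.1, f.2.mul g.2⟩
  ev_mul _ _ _ _ _ := map_mul _ _ _

variable (C : Closed d)

theorem Closed.nonneg {L : Fin h → ℤ} {f : MvPolynomial (Σ t, Fin (d t + 1)) ℂ}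
    (hf : IsWeightedHomogeneous (wt d) f L) (h0 : f ≠ 0) (t : Fin h) : 0 ≤ L t := by
  obtain ⟨e, he⟩ := ne_zero_iff.1 h0
  have h1 := hf he
  rw [← h1, Finsupp.weight_apply, Finsupp.sum_fintype _ _ (by simp), Finset.sum_apply]
  refine Finset.sum_nonneg fun j _ => ?_
  simp only [wt, Pi.smul_apply, nsmul_eq_mul]
  rcases eq_or_ne t j.1 with h | h
  · rw [h, Pi.single_eq_same]
    positivity
  · rw [Pi.single_eq_of_ne h, mul_zero]

theorem Closed.eff_nonneg {L : Fin h → ℤ} (hL : C.T.Eff L) (t : Fin h) : 0 ≤ L t := by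
  obtain ⟨⟨f, hf⟩, p, hp⟩ := hL
  refine Closed.nonneg hf (fun h0 => hp ?_) t
  show aeval p.1 f = 0
  rw [h0, map_zero]

theorem Closed.big_pos {B : Fin h → ℤ} (hB : C.T.Big B) (t : Fin h) : 1 ≤ B t := by
  obtain ⟨k, c, hk, hc, h1⟩ := hB (-Pi.single t 1)
  have h2 := C.eff_nonneg h1 t
  simp only [Pi.smul_apply, Pi.add_apply, Pi.neg_apply, Pi.single_eq_same, nsmul_eq_mul] at h2
  have hc' : (0 : ℤ) < c := by exact_mod_cast hc
  have hk' : (0 : ℤ) < k := by exact_mod_cast hk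
  have h3 : 0 ≤ (k : ℤ) * B t + -1 := nonneg_of_mul_nonneg_right h2 hc'
  by_contra hcon
  have h7 : B t ≤ 0 := by omega
  have := mul_nonpos_of_nonneg_of_nonpos hk'.le h7
  linarith

/-- The monomial `∏ x_(t, i_t) ^ l_t`. -/
noncomputable def mon (i : ∀ t, Fin (d t + 1)) (l : Fin h → ℕ) :
    MvPolynomial (Σ t, Fin (d t + 1)) ℂ := ∏ t, X ⟨t, i t⟩ ^ l t

theorem mon_hom (i : ∀ t, Fin (d t + 1)) (l : Fin h → ℕ) :
    IsWeightedHomogeneous (wt d) (mon i l) fun t => (l t : ℤ) := by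
  have h1 := IsWeightedHomogeneous.prod (w := wt d) (R := ℂ) Finset.univ
    (fun t => X (⟨t, i t⟩ : Σ t, Fin (d t + 1)) ^ l t) (fun t => l t • wt d ⟨t, i t⟩)
    (fun t _ => (isWeightedHomogeneous_X ℂ (wt d) ⟨t, i t⟩).pow (l t))
  have h2 : ∑ t, l t • wt d ⟨t, i t⟩ = fun t => (l t : ℤ) := by
    funext s
    rw [Finset.sum_apply, Finset.sum_eq_single s]
    · simp [wt]
    · intro t _ hts
      simp [wt, Pi.single_eq_of_ne' hts]
    · intro h
      exact absurd (Finset.mem_univ s) h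
  rw [h2] at h1
  exact h1

theorem aeval_mon {R : Type} [CommRing R] [Algebra ℂ R] (x : (Σ t, Fin (d t + 1)) → R)
    (i : ∀ t, Fin (d t + 1)) (l : Fin h → ℕ) : aeval x (mon i l) = ∏ t, x ⟨t, i t⟩ ^ l t := by
  unfold mon
  rw [map_prod]
  exact Finset.prod_congr rfl fun t _ => by rw [map_pow, aeval_X]

theorem Closed.gg {L : Fin h → ℤ} (hL : ∀ t, 0 ≤ L t) : C.T.GG L := by
  intro R _ _ _ p
  choose i hi using p.2.1
  have h1 : (fun t => (((L t).toNat : ℕ) : ℤ)) = L := funext fun t => Int.toNat_of_nonneg (hL t)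
  refine ⟨⟨mon i fun t => (L t).toNat, by
    have := mon_hom i fun t => (L t).toNat
    rwa [h1] at this⟩, ?_⟩
  show IsUnit (aeval p.1 (mon i fun t => (L t).toNat))
  rw [aeval_mon, IsUnit.prod_univ_iff]
  exact fun t => (hi t).pow _

theorem Closed.ample {B : Fin h → ℤ} (hB : ∀ t, 1 ≤ B t) : C.T.Ample B := by
  intro L
  refine ⟨(∑ t, (L t).natAbs) + 1, 1, by omega, le_rfl, ?_⟩
  rw [one_smul]
  refine C.gg fun t => ?_
  have h1 : (((∑ t, (L t).natAbs) + 1) • B + L) t =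
      (((∑ t, (L t).natAbs) + 1 : ℕ) : ℤ) * B t + L t := by simp
  rw [h1]
  have h2 : (L t).natAbs ≤ ∑ t, (L t).natAbs :=
    Finset.single_le_sum (f := fun t => (L t).natAbs) (fun _ _ => Nat.zero_le _)
      (Finset.mem_univ t)
  have h3 : (((∑ t, (L t).natAbs) + 1 : ℕ) : ℤ) * 1 ≤ (((∑ t, (L t).natAbs) + 1 : ℕ) : ℤ) * B t :=
    mul_le_mul_of_nonneg_left (hB t) (by positivity)
  omega

theorem Closed.ample_pos (p : C.T.Pt ℂ) {B : Fin h → ℤ} (hB : C.T.Ample B) (t : Fin h) :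
    1 ≤ B t := by
  refine C.big_pos (fun L => ?_) t
  obtain ⟨k, c, hk, hc, h1⟩ := hB L
  obtain ⟨s, hs⟩ := h1 ℂ p
  exact ⟨k, c, hk, hc, s, p, hs.ne_zero⟩

theorem Closed.va {L : Fin h → ℤ} (hL : ∀ t, 1 ≤ L t) : C.T.VA L := by
  classical
  have hgg : C.T.GG L := C.gg fun t => by linarith [hL t]
  refine ⟨hgg, ?_⟩
  intro R _ _ _ x x' z hz
  choose i hi using x.2.1
  set l : Fin h → ℕ := fun t => (L t).toNat with hl
  have hlL : (fun t => ((l t : ℕ) : ℤ)) = L :=
    funext fun t => Int.toNat_of_nonneg (by linarith [hL t])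
  have hl1 : ∀ t, l t ≠ 0 := fun t => by
    have := hL t
    rw [hl]
    dsimp only
    omega
  have hrel : ∀ f : MvPolynomial (Σ t, Fin (d t + 1)) ℂ, IsWeightedHomogeneous (wt d) f L →
      aeval x'.1 f = z * aeval x.1 f := fun f hf => hz ⟨f, hf⟩
  have hzu : IsUnit z := by
    obtain ⟨f, hf⟩ := hgg R x'
    rw [hz f] at hf
    exact isUnit_of_mul_isUnit_left hf
  have h0 := hrel (mon i l) (by
    have := mon_hom i l
    rwa [hlL] at this)
  rw [aeval_mon, aeval_mon] at h0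
  have hi' : ∀ t, IsUnit (x'.1 ⟨t, i t⟩) := by
    have h1 : IsUnit (∏ t, x'.1 ⟨t, i t⟩ ^ l t) := by
      rw [h0]
      refine hzu.mul ?_
      rw [IsUnit.prod_univ_iff]
      exact fun t => (hi t).pow _
    intro t
    rw [IsUnit.prod_univ_iff] at h1
    exact (isUnit_pow_iff (hl1 t)).1 (h1 t)
  -- the ratios of coordinates agree
  have key : ∀ t j, x'.1 ⟨t, j⟩ * x.1 ⟨t, i t⟩ = x.1 ⟨t, j⟩ * x'.1 ⟨t, i t⟩ := by
    intro t j
    obtain ⟨q, hq⟩ := Nat.exists_eq_add_of_le' (Nat.one_le_iff_ne_zero.2 (hl1 t))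
    -- the polynomial `x_(t, j) ∏ ...`
    have h2 := hrel (X ⟨t, j⟩ * mon i (Function.update l t q)) (by
      have h3 := (isWeightedHomogeneous_X ℂ (wt d) (⟨t, j⟩ : Σ t, Fin (d t + 1))).mul
        (mon_hom i (Function.update l t q))
      have h4 : (wt d (⟨t, j⟩ : Σ t, Fin (d t + 1)) + fun s => ((Function.update l t q s : ℕ) : ℤ)) =
          L := by
        rw [← hlL]
        funext s
        rw [Pi.add_apply]
        rcases eq_or_ne s t with rfl | hst
        · simp only [wt, Pi.single_eq_same, Function.update_self]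
          rw [hq]
          push_cast
          ring
        · simp only [wt, Pi.single_eq_of_ne hst, Function.update_of_ne hst]
          ring
      rwa [h4] at h3)
    rw [map_mul, map_mul, aeval_X, aeval_X, aeval_mon, aeval_mon] at h2
    have h5 : ∀ y : (Σ t, Fin (d t + 1)) → R, ∏ s, y ⟨s, i s⟩ ^ l s =
        y ⟨t, i t⟩ * ∏ s, y ⟨s, i s⟩ ^ Function.update l t q s := by
      intro y
      rw [← Finset.mul_prod_erase Finset.univ _ (Finset.mem_univ t),
        ← Finset.mul_prod_erase Finset.univ (fun s => y ⟨s, i s⟩ ^ Function.update l t q s)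
          (Finset.mem_univ t), Function.update_self, hq, pow_succ]
      have h6 : ∏ s ∈ Finset.univ.erase t, y ⟨s, i s⟩ ^ Function.update l t q s =
          ∏ s ∈ Finset.univ.erase t, y ⟨s, i s⟩ ^ l s :=
        Finset.prod_congr rfl fun s hs => by
          rw [Function.update_of_ne (Finset.ne_of_mem_erase hs)]
      rw [h6]
      ring
    rw [h5, h5] at h0
    set U := ∏ s, x.1 ⟨s, i s⟩ ^ Function.update l t q s with hU
    set U' := ∏ s, x'.1 ⟨s, i s⟩ ^ Function.update l t q s with hU'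
    have hUu : IsUnit U' := by
      rw [hU', IsUnit.prod_univ_iff]
      exact fun s => (hi' s).pow _
    have hUu0 : IsUnit U := by
      rw [hU, IsUnit.prod_univ_iff]
      exact fun s => (hi s).pow _
    -- `x'_j U' = z x_j U`, `x'_i U' = z x_i U`
    have h7 : x'.1 ⟨t, j⟩ * x.1 ⟨t, i t⟩ * U' * (z * U) = x.1 ⟨t, j⟩ * x'.1 ⟨t, i t⟩ * U' * (z * U) := by
      calc x'.1 ⟨t, j⟩ * x.1 ⟨t, i t⟩ * U' * (z * U)
          = (x'.1 ⟨t, j⟩ * U') * (z * (x.1 ⟨t, i t⟩ * U)) := by ring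
        _ = (z * (x.1 ⟨t, j⟩ * U)) * (x'.1 ⟨t, i t⟩ * U') := by rw [h2, ← h0]
        _ = _ := by ring
    exact hUu.mul_right_cancel ((hzu.mul hUu0).mul_right_cancel h7)
  -- the homomorphism
  set c : Fin h → Rˣ := fun t => (hi' t).unit * (hi t).unit⁻¹ with hc
  let χ : (Fin h → ℤ) →+ Additive Rˣ :=
    { toFun := fun L => Additive.ofMul (∏ t, c t ^ L t)
      map_zero' := by simp
      map_add' := fun L L' => by
        rw [← ofMul_mul, ← Finset.prod_mul_distrib]
        congr 1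
        exact Finset.prod_congr rfl fun t _ => by rw [Pi.add_apply, zpow_add] }
  refine ⟨χ, Subtype.ext (funext fun j => ?_)⟩
  obtain ⟨t, j⟩ := j
  have h8 : (χ (wt d ⟨t, j⟩)).toMul = c t := by
    show ∏ s, c s ^ (wt d ⟨t, j⟩ s) = c t
    rw [Finset.prod_eq_single t]
    · simp [wt]
    · intro s _ hs
      simp [wt, Pi.single_eq_of_ne hs]
    · intro h
      exact absurd (Finset.mem_univ t) h
  show ((χ (wt d ⟨t, j⟩)).toMul : R) * x.1 ⟨t, j⟩ = x'.1 ⟨t, j⟩
  rw [h8, hc]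
  dsimp only
  push_cast
  have h9 := key t j
  have h10 : ((hi t).unit⁻¹ : Rˣ) * x.1 ⟨t, i t⟩ = (1 : R) := by
    rw [IsUnit.val_inv_mul]
  rw [IsUnit.unit_spec]
  calc x'.1 ⟨t, i t⟩ * ((hi t).unit⁻¹ : Rˣ) * x.1 ⟨t, j⟩
      = ((hi t).unit⁻¹ : Rˣ) * (x.1 ⟨t, j⟩ * x'.1 ⟨t, i t⟩) := by ring
    _ = ((hi t).unit⁻¹ : Rˣ) * x.1 ⟨t, i t⟩ * x'.1 ⟨t, j⟩ := by rw [← h9]; ring
    _ = x'.1 ⟨t, j⟩ := by rw [h10, one_mul]

variable {C}

/-- The adjoint line bundles on a closed subset of a product of projective spaces. -/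
theorem Closed.adjoint_gg (p : C.T.Pt ℂ) {κ : Fin h → ℤ} {b : ℕ} (hb : ∀ t, -κ t ≤ b) :
    C.T.Adjoint C.T.GG κ b := by
  intro A hA
  refine C.gg fun t => ?_
  rw [Pi.add_apply, Finset.sum_apply]
  have h1 : ∑ l : Fin b, (1 : ℤ) ≤ ∑ l : Fin b, A l t :=
    Finset.sum_le_sum fun l _ => C.ample_pos p (hA l) t
  simp only [Finset.sum_const, Finset.card_univ, Fintype.card_fin, nsmul_eq_mul, mul_one] at h1
  linarith [hb t]

theorem Closed.adjoint_va (p : C.T.Pt ℂ) {κ : Fin h → ℤ} {b : ℕ} (hb : ∀ t, 1 - κ t ≤ b) :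
    C.T.Adjoint C.T.VA κ b := by
  intro A hA
  refine C.va fun t => ?_
  rw [Pi.add_apply, Finset.sum_apply]
  have h1 : ∑ l : Fin b, (1 : ℤ) ≤ ∑ l : Fin b, A l t :=
    Finset.sum_le_sum fun l _ => C.ample_pos p (hA l) t
  simp only [Finset.sum_const, Finset.card_univ, Fintype.card_fin, nsmul_eq_mul, mul_one] at h1
  linarith [hb t]

theorem Closed.big_ample (B : Fin h → ℤ) (hB : C.T.Big B) : C.T.Ample B :=
  C.ample (C.big_pos hB)

end Pool.Agent.U660.FT
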