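import Pool.Agent.U660.FT.Key

/-!
# Sections without zeros near the strata
-/

set_option autoImplicit false
set_option maxHeartbeats 1000000

namespace Pool.Agent.U660.FT

variable {P : Type} [AddCommGroup P] {T : Var P} {N ι : Type} [AddCommGroup N] [Fintype ι]
  [DecidableEq ι] {r n : ℕ} (D : Datum T N ι r n)

omit [DecidableEq ι] in
theorem prod_unit {R : Type} [CommRing R] (y : ι → R) (a : ι → ℕ)
    (h : ∀ i, a i ≠ 0 → IsUnit (y i)) : IsUnit (∏ i, y i ^ a i) := by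
  rw [IsUnit.prod_univ_iff]
  intro i
  rcases Nat.eq_zero_or_pos (a i) with h0 | h0
  · rw [h0, pow_zero]
    exact isUnit_one
  · exact (h i h0.ne').pow _

omit [DecidableEq ι] in
theorem unit_of_prod {R : Type} [CommRing R] (y : ι → R) (a : ι → ℕ) (h : IsUnit (∏ i, y i ^ a i))
    {i : ι} (hi : a i ≠ 0) : IsUnit (y i) := by
  rw [IsUnit.prod_univ_iff] at h
  exact (isUnit_pow_iff hi).1 (h i)

/-- Sections at the point over a common point of the branch divisors with `y_i = 0` for all `i` in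
`σ`. -/
theorem Datum.test {σ : Finset ι} (hσ : σ ∈ D.S) {α : P} {a : ι → ℤ}
    (hA : D.X.Ample (D.O α a)) (L : P) (b : ι → ℤ) :
    ∃ k c : ℕ, 1 ≤ k ∧ 1 ≤ c ∧ ∃ u : N →+ ℤ, T.Eff (c • (k • α + L) - D.γ u) ∧
      (∀ i ∈ σ, (c : ℤ) * (k * a i + b i) + u (D.s i) = 0) ∧
        ∀ i, 0 ≤ (c : ℤ) * (k * a i + b i) + u (D.s i) := by
  obtain ⟨p, hp⟩ := D.meet
  obtain ⟨k, c, hk, hc, h⟩ := hA (D.O L b)
  have hon : D.OnX p fun i => if i ∈ σ then (0 : ℂ) else 1 := by
    refine ⟨fun t => ?_, σ, hσ, fun i hi => ?_⟩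
    · rw [hp t]
      symm
      have h1 : ∃ i ∈ σ, D.x t (D.s i) ≠ 0 := by
        by_contra hcon
        push Not at hcon
        exact D.indep.ne_zero t (D.ext hσ fun i hi => by rw [hcon i hi]; rfl)
      obtain ⟨i, hi, h1⟩ := h1
      refine Finset.prod_eq_zero (Finset.mem_univ i) ?_
      dsimp only
      rw [if_pos hi]
      have h2 := D.pos t i
      exact zero_pow (by omega)
    · dsimp only
      rw [if_neg hi]
      exact isUnit_one
  obtain ⟨⟨⟨L', s, a'⟩, hf⟩, hu⟩ := h ℂ ⟨(p, fun i => if i ∈ σ then (0 : ℂ) else 1), hon⟩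
  have hu : IsUnit (T.ev s p * ∏ i, (if i ∈ σ then (0 : ℂ) else 1) ^ a' i) := hu
  have hs := isUnit_of_mul_isUnit_left hu
  have ha' : ∀ i ∈ σ, a' i = 0 := by
    intro i hi
    by_contra h0
    have := unit_of_prod _ a' (isUnit_of_mul_isUnit_right hu) h0
    rw [if_pos hi] at this
    exact not_isUnit_zero this
  have hf : D.O L' (fun i => (a' i : ℤ)) = D.O (c • (k • α + L)) (c • (k • a + b)) := hf
  obtain ⟨u, hu1, hu2⟩ := D.of_mk_eq hf
  have hu3 : ∀ i, (a' i : ℤ) = (c : ℤ) * (k * a i + b i) + u (D.s i) := by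
    intro i
    have := hu2 i
    simpa using this
  refine ⟨k, c, hk, hc, u, ?_, fun i hi => ?_, fun i => ?_⟩
  · subst hu1
    exact ⟨s, p, hs.ne_zero⟩
  · rw [← hu3, ha' i hi]
    rfl
  · rw [← hu3]
    positivity

/-- The vertices are integral points of the interior of the opposite half spaces. -/
theorem Datum.strict {α : P} {a : ι → ℤ} (hA : D.X.Ample (D.O α a)) :
    ∀ σ ∈ D.S, ∀ j, j ∉ σ → 1 ≤ a j + D.u σ a (D.s j) := by
  intro σ hσ j hj
  obtain ⟨k, c, hk, hc, u, -, h1, h2⟩ := D.test hσ hA 0 (-Pi.single j 1)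
  have hu : u = (c * k) • D.u σ a := by
    refine D.ext hσ fun i hi => ?_
    have h3 := h1 i hi
    have hij : i ≠ j := fun h => hj (h ▸ hi)
    rw [Pi.neg_apply, Pi.single_eq_of_ne hij] at h3
    have h4 : ((c * k) • D.u σ a) (D.s i) = (c * k : ℕ) * D.u σ a (D.s i) := by simp
    rw [h4, D.u_apply hσ a hi]
    push_cast
    linarith
  have h3 := h2 j
  rw [Pi.neg_apply, Pi.single_eq_same, hu] at h3
  have h4 : ((c * k) • D.u σ a) (D.s j) = (c * k : ℕ) * D.u σ a (D.s j) := by simp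
  rw [h4] at h3
  push_cast at h3
  have hc' : (0 : ℤ) < c := by exact_mod_cast hc
  have hk' : (0 : ℤ) < k := by exact_mod_cast hk
  have h5 : 0 ≤ (c : ℤ) * (k * (a j + D.u σ a (D.s j)) - 1) := by linarith
  have h6 : 0 ≤ (k : ℤ) * (a j + D.u σ a (D.s j)) - 1 := nonneg_of_mul_nonneg_right h5 hc'
  by_contra hcon
  have h7 : a j + D.u σ a (D.s j) ≤ 0 := by omega
  have := mul_nonpos_of_nonneg_of_nonpos hk'.le h7
  linarith

/-- The line bundles at the vertices are big. -/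
theorem Datum.big {α : P} {a : ι → ℤ} (hA : D.X.Ample (D.O α a)) {σ : Finset ι} (hσ : σ ∈ D.S) :
    T.Big (α - D.γ (D.u σ a)) := by
  intro L
  obtain ⟨k, c, hk, hc, u, h0, h1, -⟩ := D.test hσ hA L 0
  have hu : u = (c * k) • D.u σ a := by
    refine D.ext hσ fun i hi => ?_
    have h3 := h1 i hi
    rw [Pi.zero_apply] at h3
    have h4 : ((c * k) • D.u σ a) (D.s i) = (c * k : ℕ) * D.u σ a (D.s i) := by simp
    rw [h4, D.u_apply hσ a hi]
    push_cast
    linarith
  refine ⟨k, c, hk, hc, Eff.cast h0 ?_⟩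
  rw [hu, map_nsmul, mul_smul]
  simp only [smul_sub, smul_add]
  abel

theorem Datum.step {α : P} {a : ι → ℤ} (hA : D.X.Ample (D.O α a)) {σ : Finset ι} (hσ : σ ∈ D.S)
    {i : ι} (hi : i ∈ σ) (hI : D.Interior σ i) (hT : T.Irred) :
    T.Big (α - D.γ (D.u σ a) - D.γ (D.e σ i)) ∧
      ∀ j, 0 ≤ a j + D.u σ a (D.s j) + D.e σ i (D.s j) := by
  obtain ⟨τ, hτ, l, hl, hu⟩ := D.next hσ hi hI (D.strict hA)
  refine ⟨Big.sub hT hl (D.big hA hσ) ?_, fun j => ?_⟩
  · have h1 := D.big hA hτ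
    rw [hu, map_add, map_nsmul] at h1
    rwa [show α - D.γ (D.u σ a) - l • D.γ (D.e σ i) =
      α - (D.γ (D.u σ a) + l • D.γ (D.e σ i)) by abel]
  · have hge : ∀ τ ∈ D.S, ∀ j, 0 ≤ a j + D.u τ a (D.s j) := by
      intro τ hτ j
      by_cases hj : j ∈ τ
      · rw [D.u_apply hτ a hj]
        simp
      · linarith [D.strict hA τ hτ j hj]
    have h1 := hge τ hτ j
    rw [hu, AddMonoidHom.add_apply] at h1
    have h4 : (l • D.e σ i) (D.s j) = l * D.e σ i (D.s j) := by simp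
    rw [h4] at h1
    have h2 := hge σ hσ j
    have hl' : (1 : ℤ) ≤ l := by exact_mod_cast hl
    by_contra hcon
    push Not at hcon
    have h5 : (l : ℤ) * (a j + D.u σ a (D.s j) + D.e σ i (D.s j)) ≤
        1 * (a j + D.u σ a (D.s j) + D.e σ i (D.s j)) :=
      mul_le_mul_of_nonpos_right hl' hcon.le
    have h6 : 0 ≤ ((l : ℤ) - 1) * (a j + D.u σ a (D.s j)) := mul_nonneg (by linarith) h2
    nlinarith

theorem map_sum_smul {κ M : Type} [AddCommMonoid M] (s : Finset κ) (k : κ → ℕ) (C : κ → M) :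
    ((∑ i ∈ s, k i • ({i} : Multiset κ)).map C).sum = ∑ i ∈ s, k i • C i := by
  classical
  induction s using Finset.induction_on with
  | empty => simp
  | insert i s hi ih =>
    rw [Finset.sum_insert hi, Finset.sum_insert hi, Multiset.map_add, Multiset.sum_add, ih,
      Multiset.map_nsmul, Multiset.sum_nsmul]
    simp

theorem mem_sum_smul {κ : Type} (s : Finset κ) (k : κ → ℕ) {i : κ}
    (h : i ∈ ∑ i ∈ s, k i • ({i} : Multiset κ)) : i ∈ s := by
  classical
  induction s using Finset.induction_on with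
  | empty => simp at h
  | insert j s hj ih =>
    rw [Finset.sum_insert hj, Multiset.mem_add] at h
    rcases h with h | h
    · have := Multiset.mem_of_mem_nsmul h
      rw [Multiset.mem_singleton] at this
      rw [this]
      exact Finset.mem_insert_self j s
    · exact Finset.mem_insert_of_mem (ih h)

theorem card_sum_smul {κ : Type} (s : Finset κ) (k : κ → ℕ) :
    Multiset.card (∑ i ∈ s, k i • ({i} : Multiset κ)) = ∑ i ∈ s, k i := by
  classical
  induction s using Finset.induction_on with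
  | empty => simp
  | insert i s hi ih =>
    rw [Finset.sum_insert hi, Finset.sum_insert hi, Multiset.card_add, ih, Multiset.card_nsmul]
    simp

open Classical in
/-- The sum over the branch divisors minus the boundary terms. -/
theorem Datum.bdry {σ : Finset ι} (hσ : σ ∈ D.S) (k : ι → ℕ)
    (hk : ∀ i ∈ σ, ∀ t, D.x t = D.x t (D.s i) • D.e σ i → (k i : ℤ) ≤ D.x t (D.s i))
    (hT : T.Irred) : T.QEff (∑ t, D.γ (D.x t) -
      ∑ i ∈ σ.filter (fun i => ¬ D.Interior σ i), k i • D.γ (D.e σ i)) := by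
  obtain ⟨p, -⟩ := D.meet
  have hex : ∀ i : ι, ∃ t : Fin r ⊕ Unit, i ∈ σ → ¬ D.Interior σ i → ∃ t', t = Sum.inl t' ∧
      0 < D.x t' (D.s i) ∧ (∀ j ∈ σ, j ≠ i → D.x t' (D.s j) = 0) ∧
        D.x t' = D.x t' (D.s i) • D.e σ i := by
    intro i
    by_cases h : i ∈ σ ∧ ¬ D.Interior σ i
    · obtain ⟨t, h1, h2, h3⟩ := D.boundary hσ h.1 h.2
      exact ⟨Sum.inl t, fun _ _ => ⟨t, rfl, h1, h2, h3⟩⟩
    · exact ⟨Sum.inr (), fun h1 h2 => absurd ⟨h1, h2⟩ h⟩
  choose τ hτ using hex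
  set σb := σ.filter (fun i => ¬ D.Interior σ i) with hσb
  have hinj : Set.InjOn τ (σb : Set ι) := by
    intro i hi j hj hij
    have hi := Finset.mem_filter.1 (Finset.mem_coe.1 hi)
    have hj := Finset.mem_filter.1 (Finset.mem_coe.1 hj)
    obtain ⟨t, ht, h1, h2, -⟩ := hτ i hi.1 hi.2
    obtain ⟨t', ht', h1', h2', -⟩ := hτ j hj.1 hj.2
    rw [ht, ht'] at hij
    have := Sum.inl.inj hij
    subst this
    by_contra hne
    have := h2' i hi.1 hne
    omega
  set g : Fin r ⊕ Unit → P := Sum.elim (fun t => D.γ (D.x t)) 0 with hg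
  have h1 : ∑ t, D.γ (D.x t) = ∑ t, g t := by
    rw [Fintype.sum_sum_type]
    simp [hg]
  have h2 : ∑ t, g t = ∑ t ∈ Finset.univ \ σb.image τ, g t + ∑ i ∈ σb, g (τ i) := by
    rw [← Finset.sum_image hinj]
    exact (Finset.sum_sdiff (Finset.subset_univ _)).symm
  rw [h1, h2, add_sub_assoc, ← Finset.sum_sub_distrib]
  refine QEff.add hT (QEff.sum hT p _ _ fun t _ => ?_) (QEff.sum hT p _ _ fun i hi => ?_)
  · rcases t with t | t
    · exact Eff.q ⟨D.F t, D.nonzero t⟩
    · exact Eff.q (Eff.zero p)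
  · have hi := Finset.mem_filter.1 hi
    obtain ⟨t, ht, h3, -, h4⟩ := hτ i hi.1 hi.2
    rw [ht]
    show T.QEff (D.γ (D.x t) - k i • D.γ (D.e σ i))
    have h5 := hk i hi.1 t h4
    obtain ⟨q, hq⟩ := Int.eq_ofNat_of_zero_le h3.le
    obtain ⟨d, hd⟩ := Int.eq_ofNat_of_zero_le (sub_nonneg.2 h5)
    have h6 : D.γ (D.x t) = q • D.γ (D.e σ i) := by
      conv_lhs => rw [h4, hq]
      rw [natCast_zsmul, map_nsmul]
    have hqd : q = k i + d := by omega
    have h7 : D.γ (D.x t) - k i • D.γ (D.e σ i) = d • D.γ (D.e σ i) := by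
      rw [h6, hqd, add_smul]
      abel
    rw [h7]
    rcases Nat.eq_zero_or_pos d with h0 | h0
    · rw [h0, zero_smul]
      exact Eff.q (Eff.zero p)
    · refine ⟨q, by omega, ?_⟩
      refine Eff.cast (Eff.smul hT ⟨D.F t, D.nonzero t⟩ h0) ?_
      rw [h6, smul_smul, smul_smul, mul_comm]

variable {m : ℕ} {α : Fin m → P} {a : Fin m → ι → ℤ}

/-- The linear form at the cone `σ`. -/
noncomputable def Datum.w (D : Datum T N ι r n) (σ : Finset ι) (a : Fin m → ι → ℤ) (k : ι → ℕ) :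
    N →+ ℤ := ∑ l, D.u σ (a l) + ∑ i ∈ σ, k i • D.e σ i

open Classical in
theorem Datum.vertex (hA : ∀ l, D.X.Ample (D.O (α l) (a l))) (hT : T.Irred) (hm : 1 ≤ m)
    {σ : Finset ι} (hσ : σ ∈ D.S) (k : ι → ℕ)
    (hk : ∀ i ∈ σ, ∀ t, D.x t = D.x t (D.s i) • D.e σ i → (k i : ℤ) ≤ D.x t (D.s i))
    (hkm : ∑ i ∈ σ.filter (fun i => D.Interior σ i), k i ≤ m) :
    T.BigSum m (∑ t, D.γ (D.x t) + ∑ l, α l - D.γ (D.w σ a k)) ∧
      (∀ i ∈ σ, -1 + ∑ l, a l i + D.w σ a k (D.s i) = k i - 1) ∧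
        ∀ j, j ∉ σ → (m : ℤ) - 1 - ∑ i ∈ σ.filter (fun i => D.Interior σ i), (k i : ℤ) ≤
          -1 + ∑ l, a l j + D.w σ a k (D.s j) := by
  set σI := σ.filter (fun i => D.Interior σ i) with hσI
  set σb := σ.filter (fun i => ¬ D.Interior σ i) with hσb
  have hsplit : ∀ {M : Type} [AddCommMonoid M] (f : ι → M), ∑ i ∈ σ, f i =
      ∑ i ∈ σI, f i + ∑ i ∈ σb, f i := fun f => (Finset.sum_filter_add_sum_filter_not σ _ f).symm
  have hwe : ∀ v, D.w σ a k v = ∑ l, D.u σ (a l) v + ∑ i ∈ σ, k i * D.e σ i v := by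
    intro v
    unfold Datum.w
    rw [AddMonoidHom.add_apply, sum_apply', sum_apply']
    simp
  set I : Multiset ι := ∑ i ∈ σI, k i • ({i} : Multiset ι) with hI
  have hImem : ∀ i ∈ I, i ∈ σ ∧ D.Interior σ i := fun i hi =>
    Finset.mem_filter.1 (mem_sum_smul _ _ hi)
  have hIcard : Multiset.card I = ∑ i ∈ σI, k i := card_sum_smul _ _
  refine ⟨?_, ?_, ?_⟩
  · have h1 := BigSum.of_sub (fun i => D.γ (D.e σ i)) m (fun l => α l - D.γ (D.u σ (a l))) I
      (fun l => D.big (hA l) hσ) (fun l i hi => (D.step (hA l) hσ (hImem i hi).1 (hImem i hi).2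
        hT).1) (by rw [hIcard]; exact hkm)
    have h2 := BigSum.add_q hT hm h1 (D.bdry hσ k hk hT)
    rw [hI, map_sum_smul] at h2
    convert h2 using 1
    unfold Datum.w
    rw [map_add, map_sum, map_sum, Finset.sum_sub_distrib, hsplit]
    simp only [map_nsmul]
    abel
  · intro i hi
    rw [hwe, Finset.sum_congr rfl fun l _ => D.u_apply hσ (a l) hi, Finset.sum_neg_distrib,
      Finset.sum_eq_single i]
    · rw [D.e_apply hσ hi hi, if_pos rfl]
      ring
    · intro j hj hji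
      rw [D.e_apply hσ hj hi, if_neg hji, mul_zero]
    · intro h
      exact absurd hi h
  · intro j hj
    have h1 := num_of_sub (fun i => D.e σ i (D.s j)) m (fun l => a l j + D.u σ (a l) (D.s j)) I
      (fun l => D.strict (hA l) σ hσ j hj) (fun l i hi => (D.step (hA l) hσ (hImem i hi).1
        (hImem i hi).2 hT).2 j) (by rw [hIcard]; exact hkm)
    rw [hI, map_sum_smul, card_sum_smul] at h1
    rw [hwe, hsplit]
    have h2 : 0 ≤ ∑ i ∈ σb, k i * D.e σ i (D.s j) := by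
      refine Finset.sum_nonneg fun i hi => ?_
      have hi := Finset.mem_filter.1 hi
      obtain ⟨t, h3, -, h4⟩ := D.boundary hσ hi.1 hi.2
      have h5 : D.x t (D.s j) = D.x t (D.s i) * D.e σ i (D.s j) := by
        conv_lhs => rw [h4]
        simp
      have h6 := D.pos t j
      rw [h5] at h6
      have h7 : 0 ≤ D.e σ i (D.s j) := nonneg_of_mul_nonneg_right h6 h3
      positivity
    rw [Finset.sum_add_distrib] at h1
    simp only [nsmul_eq_mul] at h1
    push_cast at h1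
    linarith

end Pool.Agent.U660.FT
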